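import Mathlib

/-!
Real estimates for the skeleton `a_l(r) = ∏_{j<l} (r/(j+1))^(2 N_j)`.
-/

set_option autoImplicit false

open Filter Topology

namespace Pool.Agent.MaxTermRatio

/-- Exponent gaps. -/
def NN (J k : ℕ) : ℕ := (J + 1) * 2 ^ k

/-- Base exponents. -/
def ex (J k : ℕ) : ℕ := (J + 1) * (2 ^ (k + 1) - 2)

lemma ex_zero (J : ℕ) : ex J 0 = 0 := by simp [ex]

lemma ex_succ (J k : ℕ) : ex J (k + 1) = ex J k + 2 * NN J k := by
  unfold ex NN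
  have h1 : 2 ^ (k + 1 + 1) = 2 ^ (k + 1) + 2 * 2 ^ k := by ring
  have h2 : 2 ≤ 2 ^ (k + 1) := by
    calc 2 = 2 ^ 1 := by norm_num
      _ ≤ 2 ^ (k + 1) := Nat.pow_le_pow_right (by norm_num) (by omega)
  rw [h1, show 2 ^ (k + 1) + 2 * 2 ^ k - 2 = (2 ^ (k + 1) - 2) + 2 * 2 ^ k by omega]
  ring

lemma NN_pos (J k : ℕ) : 1 ≤ NN J k := by
  unfold NN
  have : 1 ≤ 2 ^ k := Nat.one_le_pow _ _ (by norm_num)
  nlinarith

lemma NN_mono (J : ℕ) {k l : ℕ} (h : k ≤ l) : NN J k ≤ NN J l := by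
  unfold NN
  exact Nat.mul_le_mul_left _ (Nat.pow_le_pow_right (by norm_num) h)

lemma two_pow_le_NN (J k : ℕ) : 2 ^ k ≤ NN J k := by
  unfold NN
  have : 1 ≤ 2 ^ k := Nat.one_le_pow _ _ (by norm_num)
  nlinarith

/-- `x_l(r)`. -/
noncomputable def xx (J : ℕ) (r : ℝ) (l : ℕ) : ℝ := (r / (l + 1)) ^ (NN J l)

/-- `a_l(r)`. -/
noncomputable def aa (J : ℕ) (r : ℝ) (l : ℕ) : ℝ := ∏ j ∈ Finset.range l, (xx J r j) ^ 2

lemma xx_pos (J : ℕ) {r : ℝ} (hr : 0 < r) (l : ℕ) : 0 < xx J r l := by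
  unfold xx; positivity

lemma xx_nonneg (J : ℕ) {r : ℝ} (hr : 0 ≤ r) (l : ℕ) : 0 ≤ xx J r l := by
  unfold xx; positivity

lemma aa_pos (J : ℕ) {r : ℝ} (hr : 0 < r) (l : ℕ) : 0 < aa J r l := by
  unfold aa
  exact Finset.prod_pos fun j _ => pow_pos (xx_pos J hr j) 2

lemma aa_nonneg (J : ℕ) (r : ℝ) (l : ℕ) : 0 ≤ aa J r l := by
  unfold aa
  exact Finset.prod_nonneg fun j _ => sq_nonneg _

lemma aa_succ (J : ℕ) (r : ℝ) (l : ℕ) : aa J r (l + 1) = aa J r l * (xx J r l) ^ 2 := by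
  unfold aa
  rw [Finset.prod_range_succ]

/-- `η_k`. -/
noncomputable def eta (J k : ℕ) : ℝ := (((k : ℝ) + 3 / 2) / (k + 2)) ^ (NN J (k + 1))

lemma eta_pos (J k : ℕ) : 0 < eta J k := by unfold eta; positivity

lemma eta_le (J k : ℕ) : eta J k ≤ 2 * (k + 2) / 2 ^ (k + 1) := by
  unfold eta
  have hk : (0 : ℝ) ≤ k := Nat.cast_nonneg k
  set y : ℝ := 1 / (2 * (k + 2)) with hy
  have hy0 : 0 < y := by positivity
  have hy1 : y ≤ 1 := by
    rw [hy, div_le_one (by positivity)]; linarith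
  have e : ((k : ℝ) + 3 / 2) / (k + 2) = 1 - y := by
    rw [hy]; field_simp; ring
  rw [e]
  have h1 : (1 - y) ^ (NN J (k + 1)) * (1 + y) ^ (NN J (k + 1)) ≤ 1 := by
    rw [← mul_pow]
    apply pow_le_one₀
    · nlinarith
    · nlinarith [sq_nonneg y]
  have h2 : 1 + (NN J (k + 1) : ℝ) * y ≤ (1 + y) ^ (NN J (k + 1)) :=
    one_add_mul_le_pow (by linarith) _
  have h3 : (2 : ℝ) ^ (k + 1) ≤ NN J (k + 1) := by
    exact_mod_cast two_pow_le_NN J (k + 1)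
  have h4 : (2 : ℝ) ^ (k + 1) * y ≤ (1 + y) ^ (NN J (k + 1)) := by
    have := mul_le_mul_of_nonneg_right h3 hy0.le
    linarith
  have h5 : 0 ≤ (1 - y) ^ (NN J (k + 1)) := pow_nonneg (by linarith) _
  have h6 : (1 - y) ^ (NN J (k + 1)) * ((2 : ℝ) ^ (k + 1) * y) ≤ 1 :=
    le_trans (mul_le_mul_of_nonneg_left h4 h5) h1
  rw [le_div_iff₀ (by positivity)]
  have h7 : (1 - y) ^ (NN J (k + 1)) * 2 ^ (k + 1) =
      ((1 - y) ^ (NN J (k + 1)) * ((2 : ℝ) ^ (k + 1) * y)) * (2 * (k + 2)) := by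
    rw [hy]; field_simp
  rw [h7]
  calc _ ≤ 1 * (2 * ((k : ℝ) + 2)) := mul_le_mul_of_nonneg_right h6 (by positivity)
    _ = _ := by ring

lemma xx_right (J k : ℕ) {r : ℝ} (hr0 : 0 ≤ r) (hr : r ≤ k + 3 / 2) {l : ℕ} (hl : k + 1 ≤ l) :
    xx J r l ≤ eta J k := by
  unfold xx eta
  have hk : (0 : ℝ) ≤ k := Nat.cast_nonneg k
  have hl' : (k : ℝ) + 1 ≤ l := by exact_mod_cast hl
  have h1 : r / (l + 1) ≤ ((k : ℝ) + 3 / 2) / (k + 2) := by
    rw [div_le_div_iff₀ (by linarith) (by linarith)]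
    have : r * (k + 2) ≤ (k + 3 / 2) * (k + 2) := mul_le_mul_of_nonneg_right hr (by linarith)
    have h2 : ((k : ℝ) + 3 / 2) * (k + 2) ≤ (k + 3 / 2) * (l + 1) :=
      mul_le_mul_of_nonneg_left (by linarith) (by linarith)
    linarith
  calc (r / (l + 1)) ^ NN J l ≤ (((k : ℝ) + 3 / 2) / (k + 2)) ^ NN J l :=
        pow_le_pow_left₀ (by positivity) h1 _
    _ ≤ (((k : ℝ) + 3 / 2) / (k + 2)) ^ NN J (k + 1) := by
        apply pow_le_pow_of_le_one (by positivity)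
        · rw [div_le_one (by positivity)]; linarith
        · exact NN_mono J hl

lemma aa_right (J k : ℕ) {r : ℝ} (hr0 : 0 ≤ r) (hr : r ≤ k + 3 / 2) (p : ℕ) :
    aa J r (k + 1 + p) ≤ aa J r (k + 1) * (eta J k) ^ (2 * p) := by
  induction p with
  | zero => simp
  | succ p ih =>
    rw [← add_assoc, aa_succ]
    have h := xx_right J k hr0 hr (l := k + 1 + p) (by omega)
    have h0 := xx_nonneg J hr0 (k + 1 + p)
    have h2 : (xx J r (k + 1 + p)) ^ 2 ≤ (eta J k) ^ 2 := pow_le_pow_left₀ h0 h 2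
    calc _ ≤ (aa J r (k + 1) * (eta J k) ^ (2 * p)) * (eta J k) ^ 2 :=
          mul_le_mul ih h2 (sq_nonneg _) (mul_nonneg (aa_nonneg _ _ _) (pow_nonneg (eta_pos _ _).le _))
      _ = _ := by ring

lemma xx_left (J : ℕ) {k l : ℕ} {r : ℝ} (hr : (k : ℝ) + 1 / 2 ≤ r) (hl : l < k) :
    1 ≤ xx J r l := by
  unfold xx
  apply one_le_pow₀
  have hl' : (l : ℝ) + 1 ≤ k := by exact_mod_cast hl
  have hl0 : (0 : ℝ) ≤ l := Nat.cast_nonneg l
  rw [le_div_iff₀ (by linarith)]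
  linarith

lemma xx_left_last (J : ℕ) {k : ℕ} {r : ℝ} (hr : (k : ℝ) + 1 + 1 / 2 ≤ r) :
    (2 : ℝ) ^ k / (2 * (k + 1)) ≤ xx J r k := by
  unfold xx
  have hk : (0 : ℝ) ≤ k := Nat.cast_nonneg k
  set y : ℝ := 1 / (2 * (k + 1)) with hy
  have hy0 : 0 < y := by positivity
  have h1 : 1 + y ≤ r / (k + 1) := by
    rw [le_div_iff₀ (by positivity), hy]
    have : (1 + 1 / (2 * ((k : ℝ) + 1))) * (k + 1) = k + 1 + 1 / 2 := by field_simp
    rw [this]; exact hr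
  have h2 : (1 + y) ^ NN J k ≤ (r / (k + 1)) ^ NN J k := pow_le_pow_left₀ (by positivity) h1 _
  have h3 : 1 + (NN J k : ℝ) * y ≤ (1 + y) ^ (NN J k) :=
    one_add_mul_le_pow (by linarith) _
  have h4 : (2 : ℝ) ^ k ≤ NN J k := by exact_mod_cast two_pow_le_NN J k
  have h5 : (2 : ℝ) ^ k * y ≤ NN J k * y := mul_le_mul_of_nonneg_right h4 hy0.le
  have h6 : (2 : ℝ) ^ k / (2 * (k + 1)) = 2 ^ k * y := by rw [hy]; field_simp
  rw [h6]
  linarith

lemma aa_left_mono (J : ℕ) {k : ℕ} {r : ℝ} (hr : (k : ℝ) + 1 / 2 ≤ r) {l m : ℕ} (hlm : l ≤ m)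
    (hm : m ≤ k) : aa J r l ≤ aa J r m := by
  induction m, hlm using Nat.le_induction with
  | base => exact le_rfl
  | succ m hm' ih =>
    have h1 := ih (by omega)
    rw [aa_succ]
    have h2 := xx_left J hr (l := m) (by omega)
    have h3 : 1 ≤ (xx J r m) ^ 2 := one_le_pow₀ h2
    calc aa J r l ≤ aa J r m := h1
      _ = aa J r m * 1 := (mul_one _).symm
      _ ≤ _ := mul_le_mul_of_nonneg_left h3 (aa_nonneg _ _ _)

/-- All the skeleton terms to the left of block `k` are small. -/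
lemma aa_left (J : ℕ) {k : ℕ} {r : ℝ} (hr : (k : ℝ) + 1 / 2 ≤ r) {l : ℕ} (hl : l < k) :
    aa J r l ≤ aa J r k * (4 * k / 2 ^ k) ∧ aa J r l * xx J r l ≤ aa J r k * (4 * k / 2 ^ k) := by
  obtain ⟨k, rfl⟩ : ∃ k', k = k' + 1 := ⟨k - 1, by omega⟩
  have hkr : (0 : ℝ) ≤ k := Nat.cast_nonneg k
  have hr' : (k : ℝ) + 1 + 1 / 2 ≤ r := by push_cast at hr; linarith
  have hx := xx_left_last J hr'
  have hx1 : 1 ≤ xx J r k := xx_left J hr (by omega)
  have hx0 : 0 < xx J r k := by linarith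
  -- reciprocal bound
  have hrec : 1 ≤ xx J r k * (4 * ((k : ℝ) + 1) / 2 ^ (k + 1)) := by
    have : (2 : ℝ) ^ k / (2 * (k + 1)) * (4 * ((k : ℝ) + 1) / 2 ^ (k + 1)) = 1 := by
      rw [pow_succ]; field_simp; ring
    calc (1 : ℝ) = (2 : ℝ) ^ k / (2 * (k + 1)) * (4 * ((k : ℝ) + 1) / 2 ^ (k + 1)) := this.symm
      _ ≤ _ := mul_le_mul_of_nonneg_right hx (by positivity)
  have hak := aa_nonneg J r k
  -- a_k x_k ≤ a_{k+1} * c
  have hmain : aa J r k * xx J r k ≤ aa J r (k + 1) * (4 * ((k : ℝ) + 1) / 2 ^ (k + 1)) := by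
    rw [aa_succ]
    have : aa J r k * xx J r k * 1 ≤ aa J r k * xx J r k * (xx J r k * (4 * ((k : ℝ) + 1) / 2 ^ (k + 1))) :=
      mul_le_mul_of_nonneg_left hrec (mul_nonneg hak hx0.le)
    calc aa J r k * xx J r k = aa J r k * xx J r k * 1 := (mul_one _).symm
      _ ≤ _ := this
      _ = _ := by ring
  have hmain0 : aa J r k ≤ aa J r k * xx J r k := by
    nlinarith
  push_cast
  have hle : aa J r l ≤ aa J r k := aa_left_mono J hr (by omega) (by omega)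
  refine ⟨by linarith, ?_⟩
  rcases Nat.lt_or_ge l k with h | h
  · have h1 : xx J r l ≤ (xx J r l) ^ 2 := by
      have := xx_left J hr (l := l) (by omega)
      nlinarith
    have h2 : aa J r l * xx J r l ≤ aa J r (l + 1) := by
      rw [aa_succ]; exact mul_le_mul_of_nonneg_left h1 (aa_nonneg _ _ _)
    have h3 : aa J r (l + 1) ≤ aa J r k := aa_left_mono J hr (by omega) (by omega)
    linarith
  · have : l = k := by omega
    subst this
    exact hmain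

lemma tendsto_poly_geom (c : ℝ) (J : ℕ) :
    Tendsto (fun k : ℕ => ((k : ℝ) + 3) ^ J * (c * (k + 3)) / 2 ^ k) atTop (𝓝 0) := by
  have h1 := tendsto_pow_const_div_const_pow_of_one_lt (J + 1) (show (1 : ℝ) < 2 by norm_num)
  have h2 : Tendsto (fun k : ℕ => (c * 8) * ((((k + 3 : ℕ) : ℝ)) ^ (J + 1) / 2 ^ (k + 3))) atTop
      (𝓝 ((c * 8) * 0)) := by
    apply Tendsto.const_mul
    exact h1.comp (tendsto_add_atTop_nat 3)
  rw [mul_zero] at h2
  refine h2.congr ?_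
  intro k
  push_cast
  rw [pow_succ, pow_add]
  field_simp
  ring

lemma tendsto_eta (J : ℕ) : Tendsto (fun k : ℕ => eta J k) atTop (𝓝 0) := by
  have h := tendsto_poly_geom 2 0
  apply squeeze_zero (fun k => (eta_pos J k).le) (fun k => ?_) h
  refine (eta_le J k).trans ?_
  have hk : (0 : ℝ) ≤ k := Nat.cast_nonneg k
  rw [pow_zero, one_mul, div_le_div_iff₀ (by positivity) (by positivity)]
  rw [pow_succ]
  have : (0 : ℝ) < 2 ^ k := by positivity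
  nlinarith

/-- closeness of powers -/
lemma abs_pow_sub_one_le {ε u : ℝ} (hε0 : 0 ≤ ε) (hε : ε ≤ 1) (h1 : 1 - ε ≤ u) (h2 : u ≤ 1 + ε)
    {j J : ℕ} (hj : j ≤ J) : |u ^ j - 1| ≤ (1 + ε) ^ J - 1 := by
  have hu : 0 ≤ u := by linarith
  have h3 : (1 + ε) ^ j ≤ (1 + ε) ^ J := pow_le_pow_right₀ (by linarith) hj
  have h4 : u ^ j ≤ (1 + ε) ^ j := pow_le_pow_left₀ hu h2 j
  have h5 : (1 - ε) ^ j ≤ u ^ j := pow_le_pow_left₀ (by linarith) h1 j
  have h6 : 1 + (j : ℝ) * (-ε) ≤ (1 + (-ε)) ^ j := one_add_mul_le_pow (by linarith) _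
  have h7 : 1 + (j : ℝ) * ε ≤ (1 + ε) ^ j := one_add_mul_le_pow (by linarith) _
  rw [abs_le]
  constructor
  · have : (1 + (-ε)) ^ j = (1 - ε) ^ j := by ring
    rw [this] at h6
    linarith
  · linarith

/-- closeness parameter -/
noncomputable def del (J k : ℕ) : ℝ := (1 + 3 / (2 * ((k : ℝ) + 2))) ^ J - 1

lemma tendsto_del (J : ℕ) : Tendsto (fun k : ℕ => del J k) atTop (𝓝 0) := by
  unfold del
  have h1 : Tendsto (fun k : ℕ => 3 / (2 * ((k : ℝ) + 2))) atTop (𝓝 0) := by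
    apply Tendsto.div_atTop tendsto_const_nhds
    apply Tendsto.const_mul_atTop (by norm_num)
    exact tendsto_atTop_add_const_right _ _ tendsto_natCast_atTop_atTop
  have h2 : Tendsto (fun k : ℕ => (1 + 3 / (2 * ((k : ℝ) + 2))) ^ J - 1) atTop
      (𝓝 ((1 + 0) ^ J - 1)) := ((tendsto_const_nhds.add h1).pow J).sub tendsto_const_nhds
  simpa using h2

lemma del_nonneg (J k : ℕ) : 0 ≤ del J k := by
  unfold del
  have : 1 ≤ (1 + 3 / (2 * ((k : ℝ) + 2))) ^ J := by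
    apply one_le_pow₀
    have : (0 : ℝ) ≤ 3 / (2 * ((k : ℝ) + 2)) := by positivity
    linarith
  linarith

lemma ratio_close {k : ℕ} {r : ℝ} (h1 : (k : ℝ) + 1 / 2 ≤ r) (h2 : r ≤ k + 3 / 2) {j J : ℕ}
    (hj : j ≤ J) : |(r / (k + 1)) ^ j - 1| ≤ del J k ∧ |(r / (k + 1 + 1)) ^ j - 1| ≤ del J k := by
  have hk : (0 : ℝ) ≤ k := Nat.cast_nonneg k
  have hε0 : (0 : ℝ) ≤ 3 / (2 * ((k : ℝ) + 2)) := by positivity
  have hε1 : 3 / (2 * ((k : ℝ) + 2)) ≤ 1 := by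
    rw [div_le_one (by positivity)]; linarith
  constructor
  · apply abs_pow_sub_one_le hε0 hε1 _ _ hj
    · rw [le_div_iff₀ (by positivity), sub_mul, div_mul_eq_mul_div, sub_le_iff_le_add,
        ← sub_le_iff_le_add', le_div_iff₀ (by positivity)]
      nlinarith
    · rw [div_le_iff₀ (by positivity), add_mul, div_mul_eq_mul_div, ← sub_le_iff_le_add',
        le_div_iff₀ (by positivity)]
      nlinarith
  · apply abs_pow_sub_one_le hε0 hε1 _ _ hj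
    · rw [le_div_iff₀ (by positivity), sub_mul, div_mul_eq_mul_div, sub_le_iff_le_add,
        ← sub_le_iff_le_add', le_div_iff₀ (by positivity)]
      nlinarith
    · rw [div_le_iff₀ (by positivity), add_mul, div_mul_eq_mul_div, ← sub_le_iff_le_add',
        le_div_iff₀ (by positivity)]
      nlinarith

end Pool.Agent.MaxTermRatio
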