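import Mathlib
import Pool.Agent.MaxTermRatio.Skeleton

/-!
The glued entire function.
-/

set_option autoImplicit false

open Filter Topology

namespace Pool.Agent.MaxTermRatio

/-- Leading coefficients. -/
noncomputable def Ac (J : ℕ) (l : ℕ) : ℂ :=
  ∏ j ∈ Finset.range l, (-((((j : ℂ) + 1) ^ (2 * NN J j))⁻¹))

/-- Leading monomials. -/
noncomputable def Bz (J : ℕ) (z : ℂ) (l : ℕ) : ℂ :=
  ∏ j ∈ Finset.range l, (-((z / ((j : ℂ) + 1)) ^ (2 * NN J j)))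

lemma Bz_eq (J : ℕ) (z : ℂ) (l : ℕ) : Bz J z l = Ac J l * z ^ (ex J l) := by
  induction l with
  | zero => simp [Bz, Ac, ex_zero]
  | succ l ih =>
    have h1 : Bz J z (l + 1) = Bz J z l * (-((z / ((l : ℂ) + 1)) ^ (2 * NN J l))) := by
      unfold Bz; rw [Finset.prod_range_succ]
    have h2 : Ac J (l + 1) = Ac J l * (-((((l : ℂ) + 1) ^ (2 * NN J l))⁻¹)) := by
      unfold Ac; rw [Finset.prod_range_succ]
    rw [h1, h2, ih, ex_succ, pow_add, div_pow, div_eq_mul_inv]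
    ring

lemma Bz_succ (J : ℕ) (z : ℂ) (l : ℕ) :
    Bz J z (l + 1) = - (Bz J z l * ((z / ((l : ℂ) + 1)) ^ (NN J l)) ^ 2) := by
  unfold Bz
  rw [Finset.prod_range_succ]
  ring

lemma norm_nat_add_one (l : ℕ) : ‖(l : ℂ) + 1‖ = (l : ℝ) + 1 := by
  rw [show (l : ℂ) + 1 = (((l : ℝ) + 1 : ℝ) : ℂ) by push_cast; rfl, Complex.norm_real,
    Real.norm_of_nonneg (by positivity)]

lemma norm_Bz (J : ℕ) (z : ℂ) (l : ℕ) : ‖Bz J z l‖ = aa J ‖z‖ l := by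
  unfold Bz aa xx
  rw [norm_prod]
  apply Finset.prod_congr rfl
  intro j _
  rw [norm_neg, norm_pow, norm_div, norm_nat_add_one]
  ring

lemma Ac_ne_zero (J l : ℕ) : Ac J l ≠ 0 := by
  unfold Ac
  apply Finset.prod_ne_zero_iff.mpr
  intro j _
  apply neg_ne_zero.mpr
  apply inv_ne_zero
  apply pow_ne_zero
  exact_mod_cast Nat.succ_ne_zero j

/-- `Q_i(u)`. -/
noncomputable def QQ (J : ℕ) (q : ℕ → ℕ → ℂ) (i : ℕ) (u : ℂ) : ℂ :=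
  ∑ j ∈ Finset.range (J + 1), q i j * u ^ j

/-- Block `l`. -/
noncomputable def blk (J : ℕ) (b : ℝ) (q : ℕ → ℕ → ℂ) (z : ℂ) (l : ℕ) : ℂ :=
  Bz J z l * (QQ J q (2 * l) (z / (l + 1)) +
    (b : ℂ) * (z / (l + 1)) ^ (NN J l) * QQ J q (2 * l + 1) (z / (l + 1)))

/-- The function. -/
noncomputable def gg (J : ℕ) (b : ℝ) (q : ℕ → ℕ → ℂ) (z : ℂ) : ℂ := ∑' l, blk J b q z l

/-- Index type of Taylor coefficients. -/
abbrev Idx (J : ℕ) := ℕ × (Fin 2 × Fin (J + 1))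

/-- exponent -/
def expo (J : ℕ) (p : Idx J) : ℕ := ex J p.1 + p.2.1 * NN J p.1 + p.2.2

/-- coefficient -/
noncomputable def cf (J : ℕ) (b : ℝ) (q : ℕ → ℕ → ℂ) (p : Idx J) : ℂ :=
  Ac J p.1 * ((b : ℂ) * (((p.1 : ℂ) + 1) ^ (NN J p.1))⁻¹) ^ (p.2.1 : ℕ) * q (2 * p.1 + p.2.1) p.2.2
    * (((p.1 : ℂ) + 1) ^ (p.2.2 : ℕ))⁻¹

lemma cf_mul (J : ℕ) (b : ℝ) (q : ℕ → ℕ → ℂ) (p : Idx J) (z : ℂ) :
    cf J b q p * z ^ (expo J p) =
      Bz J z p.1 * ((b : ℂ) * (z / (p.1 + 1)) ^ (NN J p.1)) ^ (p.2.1 : ℕ) *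
        (q (2 * p.1 + p.2.1) p.2.2 * (z / (p.1 + 1)) ^ (p.2.2 : ℕ)) := by
  unfold cf expo
  rw [Bz_eq, pow_add, pow_add, div_pow, div_pow, mul_comm (p.2.1 : ℕ) (NN J p.1), pow_mul,
    div_eq_mul_inv, div_eq_mul_inv]
  ring

lemma blk_eq_sum (J : ℕ) (b : ℝ) (q : ℕ → ℕ → ℂ) (z : ℂ) (l : ℕ) :
    blk J b q z l = ∑ p : Fin 2 × Fin (J + 1), cf J b q (l, p) * z ^ (expo J (l, p)) := by
  have h : ∀ p : Fin 2 × Fin (J + 1), cf J b q (l, p) * z ^ (expo J (l, p)) =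
      Bz J z l * ((b : ℂ) * (z / (l + 1)) ^ (NN J l)) ^ (p.1 : ℕ) *
        (q (2 * l + p.1) p.2 * (z / (l + 1)) ^ (p.2 : ℕ)) := fun p => cf_mul J b q (l, p) z
  rw [Finset.sum_congr rfl (fun p _ => h p), Fintype.sum_prod_type, Fin.sum_univ_two]
  simp only [Fin.val_zero, Fin.val_one, pow_zero, mul_one, pow_one, add_zero]
  rw [← Finset.mul_sum, ← Finset.mul_sum]
  rw [Fin.sum_univ_eq_sum_range (fun j => q (2 * l) j * (z / ((l : ℂ) + 1)) ^ j) (J + 1),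
    Fin.sum_univ_eq_sum_range (fun j => q (2 * l + 1) j * (z / ((l : ℂ) + 1)) ^ j) (J + 1)]
  unfold blk QQ
  ring

lemma norm_term (J : ℕ) (b : ℝ) (hb : 0 ≤ b) (q : ℕ → ℕ → ℂ) (p : Idx J) (z : ℂ) :
    ‖cf J b q p‖ * ‖z‖ ^ (expo J p) =
      aa J ‖z‖ p.1 * (b * xx J ‖z‖ p.1) ^ (p.2.1 : ℕ) *
        (‖q (2 * p.1 + p.2.1) p.2.2‖ * (‖z‖ / (p.1 + 1)) ^ (p.2.2 : ℕ)) := by
  rw [← norm_pow, ← norm_mul, cf_mul]
  rw [norm_mul, norm_mul, norm_mul, norm_pow, norm_mul, norm_pow, norm_pow, norm_div,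
    norm_nat_add_one, norm_Bz, Complex.norm_real, Real.norm_of_nonneg hb]
  rfl

lemma expo_inj (J : ℕ) : Function.Injective (expo J) := by
  have h0 : ∀ p : Idx J, expo J p = (J + 1) * (2 ^ p.1 * (2 + (p.2.1 : ℕ)) - 2) + (p.2.2 : ℕ) := by
    intro p
    unfold expo ex NN
    have h2 : 2 ≤ 2 ^ (p.1 + 1) := by
      calc 2 = 2 ^ 1 := by norm_num
        _ ≤ 2 ^ (p.1 + 1) := Nat.pow_le_pow_right (by norm_num) (by omega)
    have h3 : 2 ^ p.1 * (2 + (p.2.1 : ℕ)) - 2 = (2 ^ (p.1 + 1) - 2) + (p.2.1 : ℕ) * 2 ^ p.1 := by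
      have : 2 ^ p.1 * (2 + (p.2.1 : ℕ)) = 2 ^ (p.1 + 1) + (p.2.1 : ℕ) * 2 ^ p.1 := by ring
      rw [this]; omega
    rw [h3]; ring
  intro p p' hpp
  rw [h0, h0] at hpp
  have hj : (p.2.2 : ℕ) < J + 1 := p.2.2.2
  have hj' : (p'.2.2 : ℕ) < J + 1 := p'.2.2.2
  have hmod : (p.2.2 : ℕ) = p'.2.2 := by
    have := congrArg (· % (J + 1)) hpp
    simp only [Nat.mul_add_mod] at this
    rwa [Nat.mod_eq_of_lt hj, Nat.mod_eq_of_lt hj'] at this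
  have hdiv : 2 ^ p.1 * (2 + (p.2.1 : ℕ)) - 2 = 2 ^ p'.1 * (2 + (p'.2.1 : ℕ)) - 2 := by
    rw [hmod] at hpp
    have := Nat.add_right_cancel hpp
    exact Nat.eq_of_mul_eq_mul_left (by omega) this
  have hge : ∀ p : Idx J, 2 ≤ 2 ^ p.1 * (2 + (p.2.1 : ℕ)) := by
    intro p
    have : 1 ≤ 2 ^ p.1 := Nat.one_le_pow _ _ (by norm_num)
    nlinarith
  have hdiv' : 2 ^ p.1 * (2 + (p.2.1 : ℕ)) = 2 ^ p'.1 * (2 + (p'.2.1 : ℕ)) := by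
    have := hge p; have := hge p'; omega
  have hlt : ∀ p : Idx J, (p.2.1 : ℕ) < 2 := fun p => p.2.1.2
  have hnot : ∀ p p' : Idx J, 2 ^ p.1 * (2 + (p.2.1 : ℕ)) = 2 ^ p'.1 * (2 + (p'.2.1 : ℕ)) →
      ¬ p.1 < p'.1 := by
    intro p p' h hl
    have h1 := hlt p
    have h2 : 2 ^ (p.1 + 1) ≤ 2 ^ p'.1 := Nat.pow_le_pow_right (by norm_num) hl
    have h3 : 2 ^ (p.1 + 1) = 2 * 2 ^ p.1 := by ring
    have h4 : 0 < 2 ^ p.1 := by positivity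
    nlinarith
  have h1 : p.1 = p'.1 := by
    have a := hnot p p' hdiv'
    have b := hnot p' p hdiv'.symm
    omega
  have h2 : (p.2.1 : ℕ) = p'.2.1 := by
    rw [h1] at hdiv'
    have := Nat.eq_of_mul_eq_mul_left (by positivity) hdiv'
    omega
  ext
  · exact h1
  · exact h2
  · exact hmod

/-- Taylor coefficients. -/
noncomputable def ta (J : ℕ) (b : ℝ) (q : ℕ → ℕ → ℂ) : ℕ → ℂ :=
  Function.extend (expo J) (cf J b q) 0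

lemma ta_expo (J : ℕ) (b : ℝ) (q : ℕ → ℕ → ℂ) (p : Idx J) :
    ta J b q (expo J p) = cf J b q p := by
  unfold ta
  exact (expo_inj J).extend_apply _ _ _

lemma ta_other (J : ℕ) (b : ℝ) (q : ℕ → ℕ → ℂ) (e : ℕ) (he : ¬ ∃ p, expo J p = e) :
    ta J b q e = 0 := by
  unfold ta
  rw [Function.extend_apply' _ _ _ he]
  rfl

section bounds

variable (J : ℕ) (b : ℝ) (q : ℕ → ℕ → ℂ) (μ : ℝ)

lemma norm_QQ_le (hq : ∀ i j, ‖q i j‖ ≤ μ) (i : ℕ) (u : ℂ) {T : ℝ} (hT1 : 1 ≤ T) (hT : ‖u‖ ≤ T) :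
    ‖QQ J q i u‖ ≤ (J + 1) * μ * T ^ J := by
  unfold QQ
  have hμ : 0 ≤ μ := le_trans (norm_nonneg _) (hq 0 0)
  calc _ ≤ ∑ j ∈ Finset.range (J + 1), ‖q i j * u ^ j‖ := norm_sum_le _ _
    _ ≤ ∑ j ∈ Finset.range (J + 1), μ * T ^ J := by
        apply Finset.sum_le_sum
        intro j hj
        rw [norm_mul, norm_pow]
        apply mul_le_mul (hq i j) _ (by positivity) hμ
        calc ‖u‖ ^ j ≤ T ^ j := pow_le_pow_left₀ (norm_nonneg _) hT j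
          _ ≤ T ^ J := pow_le_pow_right₀ hT1 (by rw [Finset.mem_range] at hj; omega)
    _ = _ := by rw [Finset.sum_const, Finset.card_range]; simp; ring

lemma norm_blk_le (hb : 0 ≤ b) (hq : ∀ i j, ‖q i j‖ ≤ μ) (z : ℂ) (l : ℕ) {T : ℝ} (hT1 : 1 ≤ T)
    (hT : ‖z‖ / (l + 1) ≤ T) :
    ‖blk J b q z l‖ ≤ (J + 1) * μ * T ^ J * (aa J ‖z‖ l * (1 + b * xx J ‖z‖ l)) := by
  unfold blk
  have hu : ‖z / ((l : ℂ) + 1)‖ ≤ T := by rwa [norm_div, norm_nat_add_one]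
  have h1 := norm_QQ_le J q μ hq (2 * l) (z / (l + 1)) hT1 hu
  have h2 := norm_QQ_le J q μ hq (2 * l + 1) (z / (l + 1)) hT1 hu
  rw [norm_mul, norm_Bz]
  have h3 : ‖(b : ℂ) * (z / ((l : ℂ) + 1)) ^ (NN J l)‖ = b * xx J ‖z‖ l := by
    rw [norm_mul, norm_pow, norm_div, norm_nat_add_one, Complex.norm_real,
      Real.norm_of_nonneg hb]
    rfl
  have hx0 : 0 ≤ b * xx J ‖z‖ l := mul_nonneg hb (xx_nonneg J (norm_nonneg _) l)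
  calc _ ≤ aa J ‖z‖ l * (‖QQ J q (2 * l) (z / (l + 1))‖ +
        ‖(b : ℂ) * (z / (l + 1)) ^ (NN J l) * QQ J q (2 * l + 1) (z / (l + 1))‖) :=
        mul_le_mul_of_nonneg_left (norm_add_le _ _) (aa_nonneg _ _ _)
    _ ≤ aa J ‖z‖ l * ((J + 1) * μ * T ^ J + (b * xx J ‖z‖ l) * ((J + 1) * μ * T ^ J)) := by
        apply mul_le_mul_of_nonneg_left _ (aa_nonneg _ _ _)
        rw [norm_mul, h3]
        exact add_le_add h1 (mul_le_mul_of_nonneg_left h2 hx0)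
    _ = _ := by ring

lemma norm_cf_sum_le (hb : 0 ≤ b) (hq : ∀ i j, ‖q i j‖ ≤ μ) (z : ℂ) (l : ℕ) {T : ℝ} (hT1 : 1 ≤ T)
    (hT : ‖z‖ / (l + 1) ≤ T) :
    ∑ p : Fin 2 × Fin (J + 1), ‖cf J b q (l, p) * z ^ (expo J (l, p))‖ ≤
      (J + 1) * μ * T ^ J * (aa J ‖z‖ l * (1 + b * xx J ‖z‖ l)) := by
  have hμ : 0 ≤ μ := le_trans (norm_nonneg _) (hq 0 0)
  have hx0 : 0 ≤ b * xx J ‖z‖ l := mul_nonneg hb (xx_nonneg J (norm_nonneg _) l)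
  have h : ∀ p : Fin 2 × Fin (J + 1), ‖cf J b q (l, p) * z ^ (expo J (l, p))‖ ≤
      aa J ‖z‖ l * (b * xx J ‖z‖ l) ^ (p.1 : ℕ) * (μ * T ^ J) := by
    intro p
    rw [norm_mul, norm_pow, norm_term J b hb q (l, p) z]
    apply mul_le_mul_of_nonneg_left _ (mul_nonneg (aa_nonneg _ _ _) (pow_nonneg hx0 _))
    apply mul_le_mul (hq _ _) _ (by positivity) hμ
    calc (‖z‖ / (l + 1)) ^ (p.2 : ℕ) ≤ T ^ (p.2 : ℕ) := pow_le_pow_left₀ (by positivity) hT _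
      _ ≤ T ^ J := pow_le_pow_right₀ hT1 (by have := p.2.2; omega)
  calc _ ≤ ∑ p : Fin 2 × Fin (J + 1),
        aa J ‖z‖ l * (b * xx J ‖z‖ l) ^ (p.1 : ℕ) * (μ * T ^ J) :=
        Finset.sum_le_sum fun p _ => h p
    _ = _ := by
        rw [Fintype.sum_prod_type, Fin.sum_univ_two]
        simp
        ring

end bounds

end Pool.Agent.MaxTermRatio
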