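import Mathlib
import Pool.Agent.MaxTermRatio.Glue

/-!
Main estimates for the glued function.
-/

set_option autoImplicit false

open Filter Topology

namespace Pool.Agent.MaxTermRatio

lemma exists_eta (J : ℕ) : ∃ k0 : ℕ, ∀ k, k0 ≤ k → eta J k ≤ 1 / 2 := by
  have h := (tendsto_eta J).eventually (gt_mem_nhds (show (0 : ℝ) < 1 / 2 by norm_num))
  obtain ⟨k0, hk0⟩ := eventually_atTop.mp h
  exact ⟨k0, fun k hk => (hk0 k hk).le⟩

lemma summable_skel (J : ℕ) (b : ℝ) (hb : 0 ≤ b) (r : ℝ) (hr : 0 ≤ r) :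
    Summable (fun l => aa J r l * (1 + b * xx J r l)) := by
  obtain ⟨k0, hk0⟩ := exists_eta J
  obtain ⟨k1, hk1⟩ := exists_nat_ge r
  set k := max k0 k1 with hk
  have hη := hk0 k (le_max_left _ _)
  have hrk : r ≤ (k : ℝ) + 3 / 2 := by
    have : (k1 : ℝ) ≤ k := by exact_mod_cast le_max_right _ _
    linarith
  rw [← summable_nat_add_iff (k + 1)]
  have hη0 := (eta_pos J k).le
  refine Summable.of_nonneg_of_le (fun p => mul_nonneg (aa_nonneg _ _ _)
    (by have := mul_nonneg hb (xx_nonneg J hr (p + (k + 1))); linarith)) (fun p => ?_)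
    ((summable_geometric_of_lt_one (show (0 : ℝ) ≤ 1 / 4 by norm_num) (by norm_num)).mul_left
      (aa J r (k + 1) * (1 + b)))
  rw [add_comm p (k + 1)]
  have h1 := aa_right J k hr hrk p
  have h2 : xx J r (k + 1 + p) ≤ 1 := by
    have := xx_right J k hr hrk (l := k + 1 + p) (by omega)
    linarith
  have h3 : eta J k ^ (2 * p) ≤ (1 / 4) ^ p := by
    rw [pow_mul]
    apply pow_le_pow_left₀ (sq_nonneg _)
    nlinarith
  have h4 : b * xx J r (k + 1 + p) ≤ b := by nlinarith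
  calc aa J r (k + 1 + p) * (1 + b * xx J r (k + 1 + p))
      ≤ (aa J r (k + 1) * eta J k ^ (2 * p)) * (1 + b) := by
        apply mul_le_mul h1 (by linarith)
        · have := mul_nonneg hb (xx_nonneg J hr (k + 1 + p)); linarith
        · exact mul_nonneg (aa_nonneg _ _ _) (pow_nonneg hη0 _)
    _ ≤ (aa J r (k + 1) * (1 / 4) ^ p) * (1 + b) := by
        apply mul_le_mul_of_nonneg_right _ (by linarith)
        exact mul_le_mul_of_nonneg_left h3 (aa_nonneg _ _ _)
    _ = _ := by ring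

section

variable (J : ℕ) (b : ℝ) (q : ℕ → ℕ → ℂ) (μ : ℝ)

lemma div_nat_le (r : ℝ) (hr : 0 ≤ r) (l : ℕ) : r / (l + 1) ≤ 1 + r := by
  have hl : (0 : ℝ) ≤ l := Nat.cast_nonneg l
  rw [div_le_iff₀ (by positivity)]
  nlinarith

lemma summable_cf (hb : 0 ≤ b) (hq : ∀ i j, ‖q i j‖ ≤ μ) (z : ℂ) :
    Summable (fun p : Idx J => ‖cf J b q p * z ^ (expo J p)‖) := by
  rw [summable_prod_of_nonneg (fun p => norm_nonneg _)]
  refine ⟨fun l => Summable.of_finite, ?_⟩
  have hs := (summable_skel J b hb ‖z‖ (norm_nonneg z)).mul_left ((J + 1) * μ * (1 + ‖z‖) ^ J)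
  refine Summable.of_nonneg_of_le (fun l => tsum_nonneg fun p => norm_nonneg _) (fun l => ?_) hs
  rw [tsum_fintype]
  exact norm_cf_sum_le J b q μ hb hq z l (by linarith [norm_nonneg z])
    (div_nat_le _ (norm_nonneg z) l)

lemma summable_blk (hb : 0 ≤ b) (hq : ∀ i j, ‖q i j‖ ≤ μ) (z : ℂ) :
    Summable (fun l => blk J b q z l) := by
  apply Summable.of_norm
  have hs := (summable_skel J b hb ‖z‖ (norm_nonneg z)).mul_left ((J + 1) * μ * (1 + ‖z‖) ^ J)
  refine Summable.of_nonneg_of_le (fun l => norm_nonneg _) (fun l => ?_) hs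
  exact norm_blk_le J b q μ hb hq z l (by linarith [norm_nonneg z])
    (div_nat_le _ (norm_nonneg z) l)

lemma hasSum_gg (hb : 0 ≤ b) (hq : ∀ i j, ‖q i j‖ ≤ μ) (z : ℂ) :
    HasSum (fun e => ta J b q e * z ^ e) (gg J b q z) := by
  have h1 : Summable (fun p : Idx J => cf J b q p * z ^ (expo J p)) :=
    (summable_cf J b q μ hb hq z).of_norm
  have h2 : ∑' p : Idx J, cf J b q p * z ^ (expo J p) = gg J b q z := by
    rw [h1.tsum_prod]
    unfold gg
    congr 1
    funext l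
    rw [tsum_fintype, blk_eq_sum]
  have h3 : HasSum (fun p : Idx J => cf J b q p * z ^ (expo J p)) (gg J b q z) := by
    rw [← h2]; exact h1.hasSum
  have h4 : (fun p : Idx J => cf J b q p * z ^ (expo J p)) =
      (fun e => ta J b q e * z ^ e) ∘ expo J := by
    funext p
    simp [ta_expo]
  rw [h4, (expo_inj J).hasSum_iff] at h3
  · exact h3
  · intro e he
    rw [ta_other J b q e (by simpa [Set.mem_range] using he), zero_mul]

/-- The skeleton maximum. -/
noncomputable def YY (r : ℝ) (k : ℕ) : ℝ :=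
  max (aa J r k) (max (b * (aa J r k * xx J r k)) (aa J r (k + 1)))

lemma YY_pos {r : ℝ} (hr : 0 < r) (k : ℕ) : 0 < YY J b r k :=
  lt_of_lt_of_le (aa_pos J hr k) (le_max_left _ _)

/-- The main part with arguments moved to the unit circle. -/
noncomputable def mainT (z : ℂ) (k : ℕ) : ℂ :=
  Bz J z k * (QQ J q (2 * k) (z / ‖z‖) +
    (b : ℂ) * (z / (k + 1)) ^ (NN J k) * QQ J q (2 * k + 1) (z / ‖z‖)) +
    Bz J z (k + 1) * QQ J q (2 * k + 2) (z / ‖z‖)

/-- The main part. -/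
noncomputable def mainP (z : ℂ) (k : ℕ) : ℂ :=
  blk J b q z k + Bz J z (k + 1) * QQ J q (2 * k + 2) (z / (k + 1 + 1))

lemma QQ_close (hq : ∀ i j, ‖q i j‖ ≤ μ) (i : ℕ) (u : ℂ) (hu : ‖u‖ = 1) (s D : ℝ)
    (hs : ∀ j ≤ J, |s ^ j - 1| ≤ D) :
    ‖QQ J q i (u * s) - QQ J q i u‖ ≤ (J + 1) * μ * D := by
  unfold QQ
  have hμ : 0 ≤ μ := le_trans (norm_nonneg _) (hq 0 0)
  rw [← Finset.sum_sub_distrib]
  calc _ ≤ ∑ j ∈ Finset.range (J + 1), ‖q i j * (u * s) ^ j - q i j * u ^ j‖ := norm_sum_le _ _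
    _ ≤ ∑ j ∈ Finset.range (J + 1), μ * D := by
        apply Finset.sum_le_sum
        intro j hj
        have : q i j * (u * s) ^ j - q i j * u ^ j = q i j * (u ^ j * ((s ^ j - 1 : ℝ) : ℂ)) := by
          push_cast; ring
        rw [this, norm_mul, norm_mul, norm_pow, hu, one_pow, one_mul, Complex.norm_real,
          Real.norm_eq_abs]
        exact mul_le_mul (hq i j) (hs j (by rw [Finset.mem_range] at hj; omega)) (abs_nonneg _) hμ
    _ = _ := by rw [Finset.sum_const, Finset.card_range]; simp; ring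

lemma near_le (hb : 0 ≤ b) (hq : ∀ i j, ‖q i j‖ ≤ μ) (z : ℂ) (k : ℕ)
    (h1 : (k : ℝ) + 1 / 2 ≤ ‖z‖) (h2 : ‖z‖ ≤ k + 3 / 2) :
    ‖mainP J b q z k - mainT J b q z k‖ ≤ 3 * ((J + 1) * μ * del J k) * YY J b ‖z‖ k := by
  have hk : (0 : ℝ) ≤ k := Nat.cast_nonneg k
  have hz : 0 < ‖z‖ := by linarith
  have hzc : (‖z‖ : ℂ) ≠ 0 := by exact_mod_cast hz.ne'
  have hμ : 0 ≤ μ := le_trans (norm_nonneg _) (hq 0 0)
  set u : ℂ := z / ‖z‖ with hu
  have hun : ‖u‖ = 1 := by
    rw [hu, norm_div, Complex.norm_real, norm_norm, div_self hz.ne']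
  have e1 : z / ((k : ℂ) + 1) = u * ((‖z‖ / (k + 1) : ℝ) : ℂ) := by
    rw [hu]; push_cast; field_simp
  have e2 : z / ((k : ℂ) + 1 + 1) = u * ((‖z‖ / (k + 1 + 1) : ℝ) : ℂ) := by
    rw [hu]; push_cast; field_simp
  have c1 := fun i => QQ_close J q μ hq i u hun (‖z‖ / (k + 1)) (del J k)
    (fun j hj => (ratio_close h1 h2 hj).1)
  have c2 := fun i => QQ_close J q μ hq i u hun (‖z‖ / (k + 1 + 1)) (del J k)
    (fun j hj => (ratio_close h1 h2 hj).2)
  simp only [← e1] at c1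
  simp only [← e2] at c2
  set D := (J + 1) * μ * del J k with hD
  have hD0 : 0 ≤ D := by have := del_nonneg J k; positivity
  have hw : ‖(b : ℂ) * (z / ((k : ℂ) + 1)) ^ (NN J k)‖ = b * xx J ‖z‖ k := by
    rw [norm_mul, norm_pow, norm_div, norm_nat_add_one, Complex.norm_real,
      Real.norm_of_nonneg hb]
    rfl
  have hx := xx_nonneg J hz.le k
  have ha := aa_nonneg J ‖z‖ k
  have ha1 := aa_nonneg J ‖z‖ (k + 1)
  have e3 : mainP J b q z k - mainT J b q z k =
      Bz J z k * (QQ J q (2 * k) (z / (k + 1)) - QQ J q (2 * k) u) +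
      Bz J z k * (((b : ℂ) * (z / (k + 1)) ^ (NN J k)) *
        (QQ J q (2 * k + 1) (z / (k + 1)) - QQ J q (2 * k + 1) u)) +
      Bz J z (k + 1) * (QQ J q (2 * k + 2) (z / (k + 1 + 1)) - QQ J q (2 * k + 2) u) := by
    unfold mainP mainT blk
    rw [← hu]
    ring
  rw [e3]
  have n1 : ‖Bz J z k * (QQ J q (2 * k) (z / (k + 1)) - QQ J q (2 * k) u)‖ ≤ aa J ‖z‖ k * D := by
    rw [norm_mul, norm_Bz]
    exact mul_le_mul_of_nonneg_left (c1 _) ha
  have n2 : ‖Bz J z k * (((b : ℂ) * (z / (k + 1)) ^ (NN J k)) *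
        (QQ J q (2 * k + 1) (z / (k + 1)) - QQ J q (2 * k + 1) u))‖ ≤
      aa J ‖z‖ k * (b * xx J ‖z‖ k * D) := by
    rw [norm_mul, norm_Bz, norm_mul, hw]
    exact mul_le_mul_of_nonneg_left (mul_le_mul_of_nonneg_left (c1 _) (mul_nonneg hb hx)) ha
  have n3 : ‖Bz J z (k + 1) * (QQ J q (2 * k + 2) (z / (k + 1 + 1)) - QQ J q (2 * k + 2) u)‖ ≤
      aa J ‖z‖ (k + 1) * D := by
    rw [norm_mul, norm_Bz]
    exact mul_le_mul_of_nonneg_left (c2 _) ha1
  have y1 : aa J ‖z‖ k ≤ YY J b ‖z‖ k := le_max_left _ _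
  have y2 : b * (aa J ‖z‖ k * xx J ‖z‖ k) ≤ YY J b ‖z‖ k :=
    le_trans (le_max_left _ _) (le_max_right _ _)
  have y3 : aa J ‖z‖ (k + 1) ≤ YY J b ‖z‖ k := le_trans (le_max_right _ _) (le_max_right _ _)
  have m1 := mul_le_mul_of_nonneg_right y1 hD0
  have m2 := mul_le_mul_of_nonneg_right y2 hD0
  have m3 := mul_le_mul_of_nonneg_right y3 hD0
  calc _ ≤ _ := norm_add₃_le
    _ ≤ aa J ‖z‖ k * D + aa J ‖z‖ k * (b * xx J ‖z‖ k * D) + aa J ‖z‖ (k + 1) * D :=
        add_le_add (add_le_add n1 n2) n3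
    _ ≤ _ := by linarith

/-- Error coming from far away terms. -/
noncomputable def farE (k : ℕ) : ℝ := k * ((k + 3) ^ J * (4 * k / 2 ^ k)) + 2 * eta J k

lemma far_le (hb : 0 ≤ b) (hq : ∀ i j, ‖q i j‖ ≤ μ) (z : ℂ) (k : ℕ)
    (h1 : (k : ℝ) + 1 / 2 ≤ ‖z‖) (h2 : ‖z‖ ≤ k + 3 / 2) (hη : eta J k ≤ 1 / 2) :
    ‖gg J b q z - mainP J b q z k‖ ≤ (J + 1) * μ * (1 + b) * farE J k * YY J b ‖z‖ k := by
  have hk : (0 : ℝ) ≤ k := Nat.cast_nonneg k
  have hz : 0 < ‖z‖ := by linarith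
  have hμ : 0 ≤ μ := le_trans (norm_nonneg _) (hq 0 0)
  have hη0 := (eta_pos J k).le
  have ha1 := aa_nonneg J ‖z‖ (k + 1)
  have hsum := summable_blk J b q μ hb hq z
  have hsplit := hsum.sum_add_tsum_nat_add (k + 2)
  have y1 : aa J ‖z‖ k ≤ YY J b ‖z‖ k := le_max_left _ _
  have y3 : aa J ‖z‖ (k + 1) ≤ YY J b ‖z‖ k := le_trans (le_max_right _ _) (le_max_right _ _)
  rw [Finset.sum_range_succ, Finset.sum_range_succ] at hsplit
  -- extra piece
  set X : ℂ := Bz J z (k + 1) * (((b : ℂ) * (z / (((k + 1 : ℕ) : ℂ) + 1)) ^ (NN J (k + 1))) *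
    QQ J q (2 * (k + 1) + 1) (z / (((k + 1 : ℕ) : ℂ) + 1))) with hX
  have hblk : blk J b q z (k + 1) = Bz J z (k + 1) * QQ J q (2 * k + 2) (z / (k + 1 + 1)) + X := by
    rw [hX]
    unfold blk
    push_cast
    rw [show 2 * (k + 1) = 2 * k + 2 by ring]
    ring
  have hdecomp : gg J b q z - mainP J b q z k = ∑ l ∈ Finset.range k, blk J b q z l + X +
      ∑' p, blk J b q z (p + (k + 2)) := by
    unfold gg mainP
    rw [← hsplit, hblk]
    ring
  rw [hdecomp]
  -- left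
  have hl : ‖∑ l ∈ Finset.range k, blk J b q z l‖ ≤
      (J + 1) * μ * (1 + b) * (k * ((k + 3) ^ J * (4 * k / 2 ^ k))) * YY J b ‖z‖ k := by
    calc _ ≤ ∑ l ∈ Finset.range k, ‖blk J b q z l‖ := norm_sum_le _ _
      _ ≤ ∑ l ∈ Finset.range k, (J + 1) * μ * (k + 3) ^ J *
            ((1 + b) * (YY J b ‖z‖ k * (4 * k / 2 ^ k))) := by
          apply Finset.sum_le_sum
          intro l hl
          rw [Finset.mem_range] at hl
          have hb1 := norm_blk_le J b q μ hb hq z l (T := (k : ℝ) + 3) (by linarith) (by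
            have hl0 : (0 : ℝ) ≤ l := Nat.cast_nonneg l
            rw [div_le_iff₀ (by positivity)]
            nlinarith)
          refine hb1.trans ?_
          apply mul_le_mul_of_nonneg_left _ (by positivity)
          obtain ⟨l1, l2⟩ := aa_left J h1 hl
          have hc : (0 : ℝ) ≤ 4 * k / 2 ^ k := by positivity
          have m1 := mul_le_mul_of_nonneg_right y1 hc
          have : b * (aa J ‖z‖ l * xx J ‖z‖ l) ≤ b * (YY J b ‖z‖ k * (4 * k / 2 ^ k)) :=
            mul_le_mul_of_nonneg_left (l2.trans m1) hb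
          linarith
      _ = _ := by rw [Finset.sum_const, Finset.card_range]; simp; ring
  -- middle
  have hT : ∀ l : ℕ, k + 1 ≤ l → ‖z‖ / (l + 1) ≤ 1 := by
    intro l hl
    have hl' : (k : ℝ) + 1 ≤ l := by exact_mod_cast hl
    rw [div_le_one (by linarith)]
    linarith
  have hm : ‖X‖ ≤ (J + 1) * μ * (1 + b) * eta J k * YY J b ‖z‖ k := by
    rw [hX, norm_mul, norm_Bz, norm_mul, norm_mul, norm_pow, norm_div, norm_nat_add_one,
      Complex.norm_real, Real.norm_of_nonneg hb]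
    have e : (‖z‖ / (((k + 1 : ℕ) : ℝ) + 1)) ^ NN J (k + 1) = xx J ‖z‖ (k + 1) := rfl
    rw [e]
    have h3 := norm_QQ_le J q μ hq (2 * (k + 1) + 1) (z / (((k + 1 : ℕ) : ℂ) + 1)) (T := 1)
      le_rfl (by rw [norm_div, norm_nat_add_one]; exact hT (k + 1) le_rfl)
    rw [one_pow, mul_one] at h3
    have h4 := xx_right J k hz.le h2 (l := k + 1) le_rfl
    have h5 := xx_nonneg J hz.le (k + 1)
    calc _ ≤ aa J ‖z‖ (k + 1) * (b * eta J k * ((J + 1) * μ)) := by
          apply mul_le_mul_of_nonneg_left _ ha1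
          apply mul_le_mul (mul_le_mul_of_nonneg_left h4 hb) h3 (norm_nonneg _)
          positivity
      _ ≤ YY J b ‖z‖ k * ((1 + b) * eta J k * ((J + 1) * μ)) := by
          apply mul_le_mul y3 _ (by positivity) (le_trans ha1 y3)
          apply mul_le_mul_of_nonneg_right _ (by positivity)
          apply mul_le_mul_of_nonneg_right _ hη0
          linarith
      _ = _ := by ring
  -- right
  have hr : ‖∑' p, blk J b q z (p + (k + 2))‖ ≤
      (J + 1) * μ * (1 + b) * eta J k * YY J b ‖z‖ k := by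
    have hg : HasSum (fun p : ℕ => (J + 1) * μ * (1 + b) * eta J k * YY J b ‖z‖ k * (1 / 2) *
        (1 / 2 : ℝ) ^ p) ((J + 1) * μ * (1 + b) * eta J k * YY J b ‖z‖ k * (1 / 2) * 2) :=
      hasSum_geometric_two.mul_left _
    have := tsum_of_norm_bounded hg (f := fun p => blk J b q z (p + (k + 2))) (by
      intro p
      have hb1 := norm_blk_le J b q μ hb hq z (p + (k + 2)) (T := 1) le_rfl (hT _ (by omega))
      refine hb1.trans ?_
      have e : p + (k + 2) = k + 1 + (p + 1) := by ring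
      have h3 := aa_right J k hz.le h2 (p + 1)
      rw [← e] at h3
      have h4 := xx_right J k hz.le h2 (l := p + (k + 2)) (by omega)
      have h5 := xx_nonneg J hz.le (p + (k + 2))
      have h6 : eta J k ^ (2 * (p + 1)) ≤ eta J k * ((1 / 2) * (1 / 2) ^ p) := by
        have e2 : eta J k ^ (2 * (p + 1)) = eta J k * (eta J k * (eta J k ^ 2) ^ p) := by ring
        rw [e2]
        apply mul_le_mul_of_nonneg_left _ hη0
        apply mul_le_mul hη _ (by positivity) (by norm_num)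
        apply pow_le_pow_left₀ (sq_nonneg _)
        nlinarith
      have h7 : 1 + b * xx J ‖z‖ (p + (k + 2)) ≤ 1 + b := by nlinarith
      calc (J + 1) * μ * 1 ^ J * (aa J ‖z‖ (p + (k + 2)) * (1 + b * xx J ‖z‖ (p + (k + 2))))
          ≤ (J + 1) * μ * 1 ^ J * ((YY J b ‖z‖ k * (eta J k * ((1 / 2) * (1 / 2) ^ p))) * (1 + b)) := by
            apply mul_le_mul_of_nonneg_left _ (by positivity)
            apply mul_le_mul _ h7 (by positivity)
            · have := le_trans ha1 y3; positivity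
            · calc _ ≤ _ := h3
                _ ≤ YY J b ‖z‖ k * (eta J k * ((1 / 2) * (1 / 2) ^ p)) :=
                  mul_le_mul y3 h6 (by positivity) (le_trans ha1 y3)
        _ = _ := by rw [one_pow]; ring)
    linarith
  have := norm_add₃_le (a := ∑ l ∈ Finset.range k, blk J b q z l) (b := X)
    (c := ∑' p, blk J b q z (p + (k + 2)))
  unfold farE
  linarith

lemma mainT_eq (z : ℂ) (k : ℕ) : mainT J b q z k = Bz J z k * (QQ J q (2 * k) (z / ‖z‖) +
    (b : ℂ) * (z / (k + 1)) ^ (NN J k) * QQ J q (2 * k + 1) (z / ‖z‖) -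
    ((z / (k + 1)) ^ (NN J k)) ^ 2 * QQ J q (2 * k + 2) (z / ‖z‖)) := by
  unfold mainT
  rw [Bz_succ]
  ring

/-- Upper bound for the main part. -/
lemma mainT_le (hb : 0 ≤ b) (K : ℝ) (hK : 0 ≤ K) (j0 : ℕ)
    (hP : ∀ w : ℂ, ‖1 + b * w - w ^ 2‖ ≤ K * max 1 (max (b * ‖w‖) (‖w‖ ^ 2)))
    (hpart : ∀ i z, ‖z‖ = 1 → ∃ (s t0 t1 t2 : ℝ), 0 ≤ s ∧ 0 ≤ t0 ∧ 0 ≤ t1 ∧ 0 ≤ t2 ∧
        s + t0 + t1 + t2 = 1 ∧
        QQ J q i z = z ^ j0 * ((s + K * t0 : ℝ) : ℂ) ∧
        QQ J q (i + 1) z = z ^ j0 * ((s + K * t1 : ℝ) : ℂ) ∧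
        QQ J q (i + 2) z = z ^ j0 * ((s + K * t2 : ℝ) : ℂ))
    (z : ℂ) (hz : 0 < ‖z‖) (k : ℕ) :
    ‖mainT J b q z k‖ ≤ K * YY J b ‖z‖ k := by
  have hzc : (‖z‖ : ℂ) ≠ 0 := by exact_mod_cast hz.ne'
  have hun : ‖z / (‖z‖ : ℂ)‖ = 1 := by
    rw [norm_div, Complex.norm_real, norm_norm, div_self hz.ne']
  obtain ⟨s, t0, t1, t2, hs, ht0, ht1, ht2, hsum, q0, q1, q2⟩ := hpart (2 * k) _ hun
  rw [mainT_eq, q0, q1, q2]
  set u := z / (‖z‖ : ℂ)
  set w := (z / ((k : ℂ) + 1)) ^ (NN J k) with hw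
  have hwn : ‖w‖ = xx J ‖z‖ k := by
    rw [hw, norm_pow, norm_div, norm_nat_add_one]; rfl
  have hb' : ‖(b : ℂ)‖ = b := by rw [Complex.norm_real, Real.norm_of_nonneg hb]
  have e : u ^ j0 * ((s + K * t0 : ℝ) : ℂ) + (b : ℂ) * w * (u ^ j0 * ((s + K * t1 : ℝ) : ℂ)) -
      w ^ 2 * (u ^ j0 * ((s + K * t2 : ℝ) : ℂ)) =
      u ^ j0 * ((s : ℂ) * (1 + b * w - w ^ 2) + ((K * t0 : ℝ) : ℂ) + ((K * t1 : ℝ) : ℂ) * (b * w)
        - ((K * t2 : ℝ) : ℂ) * w ^ 2) := by
    push_cast; ring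
  rw [e, norm_mul, norm_mul, norm_pow, hun, one_pow, one_mul, norm_Bz]
  set m := max 1 (max (b * ‖w‖) (‖w‖ ^ 2)) with hm
  have m1 : 1 ≤ m := le_max_left _ _
  have m2 : b * ‖w‖ ≤ m := le_trans (le_max_left _ _) (le_max_right _ _)
  have m3 : ‖w‖ ^ 2 ≤ m := le_trans (le_max_right _ _) (le_max_right _ _)
  have hmain : ‖(s : ℂ) * (1 + b * w - w ^ 2) + ((K * t0 : ℝ) : ℂ) + ((K * t1 : ℝ) : ℂ) * (b * w)
        - ((K * t2 : ℝ) : ℂ) * w ^ 2‖ ≤ K * m := by
    have n0 : ‖(s : ℂ) * (1 + b * w - w ^ 2)‖ ≤ s * (K * m) := by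
      rw [norm_mul, Complex.norm_real, Real.norm_of_nonneg hs]
      exact mul_le_mul_of_nonneg_left (hP w) hs
    have n1 : ‖((K * t0 : ℝ) : ℂ)‖ ≤ K * t0 * m := by
      rw [Complex.norm_real, Real.norm_of_nonneg (by positivity)]
      have : 0 ≤ K * t0 := by positivity
      nlinarith
    have n2 : ‖((K * t1 : ℝ) : ℂ) * (b * w)‖ ≤ K * t1 * m := by
      rw [norm_mul, Complex.norm_real, Real.norm_of_nonneg (by positivity), norm_mul, hb']
      exact mul_le_mul_of_nonneg_left m2 (by positivity)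
    have n3 : ‖((K * t2 : ℝ) : ℂ) * w ^ 2‖ ≤ K * t2 * m := by
      rw [norm_mul, Complex.norm_real, Real.norm_of_nonneg (by positivity), norm_pow]
      exact mul_le_mul_of_nonneg_left m3 (by positivity)
    calc _ ≤ ‖(s : ℂ) * (1 + b * w - w ^ 2) + ((K * t0 : ℝ) : ℂ) + ((K * t1 : ℝ) : ℂ) * (b * w)‖
          + ‖((K * t2 : ℝ) : ℂ) * w ^ 2‖ := norm_sub_le _ _
      _ ≤ (‖(s : ℂ) * (1 + b * w - w ^ 2)‖ + ‖((K * t0 : ℝ) : ℂ)‖ +
          ‖((K * t1 : ℝ) : ℂ) * (b * w)‖) + ‖((K * t2 : ℝ) : ℂ) * w ^ 2‖ := by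
          gcongr; exact norm_add₃_le
      _ ≤ s * (K * m) + K * t0 * m + K * t1 * m + K * t2 * m := by linarith
      _ = (s + t0 + t1 + t2) * (K * m) := by ring
      _ = K * m := by rw [hsum, one_mul]
  have hY : aa J ‖z‖ k * m = YY J b ‖z‖ k := by
    rw [hm, hwn]
    unfold YY
    rw [mul_max_of_nonneg _ _ (aa_nonneg _ _ _), mul_max_of_nonneg _ _ (aa_nonneg _ _ _), mul_one,
      aa_succ]
    congr 2
    ring
  calc aa J ‖z‖ k * _ ≤ aa J ‖z‖ k * (K * m) := mul_le_mul_of_nonneg_left hmain (aa_nonneg _ _ _)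
    _ = K * (aa J ‖z‖ k * m) := by ring
    _ = _ := by rw [hY]

/-- Lower bound for the main part. -/
lemma mainT_ge (hb : 0 ≤ b) (K : ℝ)
    (hroot : ∀ i, ∃ z : ℂ, ‖z‖ = 1 ∧ ‖QQ J q i z‖ = K ∧ QQ J q (i + 1) z = 0 ∧
      QQ J q (i + 2) z = 0)
    (hper : ∀ i, QQ J q (i + 3) = QQ J q i)
    (r : ℝ) (hr : 0 < r) (k : ℕ) :
    ∃ z : ℂ, ‖z‖ = r ∧ ‖mainT J b q z k‖ = K * YY J b r k := by
  have key : ∀ u : ℂ, ‖u‖ = 1 → ‖u * (r : ℂ)‖ = r ∧ (u * r) / (‖u * (r : ℂ)‖ : ℂ) = u := by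
    intro u hu
    have h1 : ‖u * (r : ℂ)‖ = r := by
      rw [norm_mul, hu, one_mul, Complex.norm_real, Real.norm_of_nonneg hr.le]
    refine ⟨h1, ?_⟩
    rw [h1]
    have : (r : ℂ) ≠ 0 := by exact_mod_cast hr.ne'
    field_simp
  have hw : ∀ z : ℂ, ‖z‖ = r → ‖(z / ((k : ℂ) + 1)) ^ (NN J k)‖ = xx J r k := by
    intro z hz
    rw [norm_pow, norm_div, norm_nat_add_one, hz]; rfl
  have hb' : ‖(b : ℂ)‖ = b := by rw [Complex.norm_real, Real.norm_of_nonneg hb]
  have hcases : YY J b r k = aa J r k ∨ YY J b r k = b * (aa J r k * xx J r k) ∨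
      YY J b r k = aa J r (k + 1) := by
    unfold YY
    rcases max_choice (aa J r k) (max (b * (aa J r k * xx J r k)) (aa J r (k + 1))) with h | h
    · left; exact h
    · right
      rw [h]
      exact max_choice _ _
  rcases hcases with h | h | h
  · obtain ⟨u, hu, hq0, hq1, hq2⟩ := hroot (2 * k)
    obtain ⟨n1, n2⟩ := key u hu
    refine ⟨u * r, n1, ?_⟩
    unfold mainT
    rw [n2, hq1, hq2, mul_zero, mul_zero, add_zero, add_zero, norm_mul, norm_Bz, n1, hq0, h]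
    ring
  · obtain ⟨u, hu, hq0, hq1, hq2⟩ := hroot (2 * k + 1)
    obtain ⟨n1, n2⟩ := key u hu
    refine ⟨u * r, n1, ?_⟩
    have hq2' : QQ J q (2 * k) u = 0 := by
      rw [← hper (2 * k)]; exact hq2
    generalize u * (r : ℂ) = zz at n1 n2 ⊢
    unfold mainT
    rw [n2, show 2 * k + 2 = 2 * k + 1 + 1 by ring, hq1, hq2', mul_zero, zero_add, add_zero,
      norm_mul, norm_Bz, norm_mul, norm_mul, hw _ n1, hb', n1, hq0, h]
    ring
  · obtain ⟨u, hu, hq0, hq1, hq2⟩ := hroot (2 * k + 2)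
    obtain ⟨n1, n2⟩ := key u hu
    refine ⟨u * r, n1, ?_⟩
    have hq1' : QQ J q (2 * k) u = 0 := by
      rw [← hper (2 * k)]; exact hq1
    have hq2' : QQ J q (2 * k + 1) u = 0 := by
      rw [← hper (2 * k + 1)]; exact hq2
    unfold mainT
    rw [n2, hq1', hq2', mul_zero, add_zero, mul_zero, zero_add, norm_mul, norm_Bz, n1, hq0, h]
    ring

/-- Upper bound for all Taylor terms. -/
lemma term_le (hb : 1 ≤ b) (hq : ∀ i j, ‖q i j‖ ≤ μ) (r : ℝ) (k : ℕ)
    (h1 : (k : ℝ) + 1 / 2 ≤ r) (h2 : r ≤ k + 3 / 2) (hη : eta J k ≤ 1 / 2) (e : ℕ) :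
    ‖ta J b q e‖ * r ^ e ≤
      μ * (1 + del J k + b * ((k + 3) ^ J * (4 * k / 2 ^ k) + eta J k)) * YY J b r k := by
  have hk : (0 : ℝ) ≤ k := Nat.cast_nonneg k
  have hr : 0 < r := by linarith
  have hb0 : 0 ≤ b := by linarith
  have hμ : 0 ≤ μ := le_trans (norm_nonneg _) (hq 0 0)
  have hη0 := (eta_pos J k).le
  have hδ := del_nonneg J k
  have hY := (YY_pos J b hr k).le
  have hc : (0 : ℝ) ≤ (k + 3) ^ J * (4 * k / 2 ^ k) := by positivity
  have y1 : aa J r k ≤ YY J b r k := le_max_left _ _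
  have y2 : b * (aa J r k * xx J r k) ≤ YY J b r k :=
    le_trans (le_max_left _ _) (le_max_right _ _)
  have y3 : aa J r (k + 1) ≤ YY J b r k := le_trans (le_max_right _ _) (le_max_right _ _)
  by_cases he : ∃ p, expo J p = e
  swap
  · rw [ta_other J b q e he, norm_zero, zero_mul]
    positivity
  obtain ⟨⟨l, i, j⟩, rfl⟩ := he
  rw [ta_expo]
  have hnorm : ‖cf J b q (l, i, j)‖ * r ^ (expo J (l, i, j)) =
      aa J r l * (b * xx J r l) ^ (i : ℕ) * (‖q (2 * l + i) j‖ * (r / (l + 1)) ^ (j : ℕ)) := by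
    have := norm_term J b hb0 q (l, i, j) (r : ℂ)
    rw [Complex.norm_real, Real.norm_of_nonneg hr.le] at this
    exact this
  rw [hnorm]
  have hjJ : (j : ℕ) ≤ J := by have := j.2; omega
  -- reduce to bounding skeleton times power
  have hx := xx_nonneg J hr.le l
  have ha := aa_nonneg J r l
  have hred : ∀ (S P : ℝ), aa J r l * (b * xx J r l) ^ (i : ℕ) ≤ S → (r / (l + 1)) ^ (j : ℕ) ≤ P →
      0 ≤ S → aa J r l * (b * xx J r l) ^ (i : ℕ) * (‖q (2 * l + i) j‖ * (r / (l + 1)) ^ (j : ℕ)) ≤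
        μ * (S * P) := by
    intro S P hS hP hS0
    calc _ ≤ S * (μ * P) := by
          apply mul_le_mul hS _ (by positivity) hS0
          exact mul_le_mul (hq _ _) hP (by positivity) hμ
      _ = _ := by ring
  have hfinal : ∀ (S P : ℝ), S * P ≤
      (1 + del J k + b * ((k + 3) ^ J * (4 * k / 2 ^ k) + eta J k)) * YY J b r k →
      μ * (S * P) ≤ μ * (1 + del J k + b * ((k + 3) ^ J * (4 * k / 2 ^ k) + eta J k)) *
        YY J b r k := by
    intro S P h
    rw [mul_assoc]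
    exact mul_le_mul_of_nonneg_left h hμ
  have hY0 : 0 ≤ b * ((k + 3) ^ J * (4 * k / 2 ^ k)) * YY J b r k := by positivity
  have hY1 : 0 ≤ b * eta J k * YY J b r k := by positivity
  have hY2 : 0 ≤ del J k * YY J b r k := by positivity
  have hi : (i : ℕ) = 0 ∨ (i : ℕ) = 1 := by have := i.2; omega
  rcases lt_trichotomy l k with hlk | hlk | hlk
  · -- left
    obtain ⟨l1, l2⟩ := aa_left J h1 hlk
    have hpw : (r / (l + 1)) ^ (j : ℕ) ≤ ((k : ℝ) + 3) ^ J := by
      have hl0 : (0 : ℝ) ≤ l := Nat.cast_nonneg l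
      calc (r / (l + 1)) ^ (j : ℕ) ≤ ((k : ℝ) + 3) ^ (j : ℕ) := by
            apply pow_le_pow_left₀ (by positivity)
            rw [div_le_iff₀ (by positivity)]
            nlinarith
        _ ≤ _ := pow_le_pow_right₀ (by linarith) hjJ
    have hS : aa J r l * (b * xx J r l) ^ (i : ℕ) ≤ b * (YY J b r k * (4 * k / 2 ^ k)) := by
      have hc4 : (0 : ℝ) ≤ 4 * k / 2 ^ k := by positivity
      have m1 := mul_le_mul_of_nonneg_right y1 hc4
      rcases hi with h | h
      · rw [h, pow_zero, mul_one]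
        have : 0 ≤ YY J b r k * (4 * k / 2 ^ k) := by positivity
        nlinarith
      · rw [h, pow_one]
        have := mul_le_mul_of_nonneg_left (l2.trans m1) hb0
        linarith
    refine (hred _ _ hS hpw (by positivity)).trans (hfinal _ _ ?_)
    have : b * (YY J b r k * (4 * k / 2 ^ k)) * ((k : ℝ) + 3) ^ J =
      b * ((k + 3) ^ J * (4 * k / 2 ^ k)) * YY J b r k := by ring
    rw [this]
    linarith
  · subst hlk
    have hpw : (r / (l + 1)) ^ (j : ℕ) ≤ 1 + del J l := by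
      have := (abs_le.mp (ratio_close h1 h2 hjJ).1).2
      linarith
    have hS : aa J r l * (b * xx J r l) ^ (i : ℕ) ≤ YY J b r l := by
      rcases hi with h | h
      · rw [h, pow_zero, mul_one]; exact y1
      · rw [h, pow_one]; linarith
    refine (hred _ _ hS hpw hY).trans (hfinal _ _ ?_)
    linarith
  · rcases Nat.lt_or_ge (k + 1) l with hl2 | hl2
    · obtain ⟨p, rfl⟩ : ∃ p, l = k + 1 + (p + 1) := ⟨l - (k + 2), by omega⟩
      have h3 := aa_right J k hr.le h2 (p + 1)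
      have h4 := xx_right J k hr.le h2 (l := k + 1 + (p + 1)) (by omega)
      have hpw : (r / ((k + 1 + (p + 1) : ℕ) + 1)) ^ (j : ℕ) ≤ 1 := by
        apply pow_le_one₀ (by positivity)
        rw [div_le_one (by positivity)]
        push_cast
        have hp : (0 : ℝ) ≤ p := Nat.cast_nonneg p
        linarith
      have h6 : eta J k ^ (2 * (p + 1)) ≤ eta J k := by
        calc _ ≤ eta J k ^ 1 := pow_le_pow_of_le_one hη0 (by linarith) (by omega)
          _ = _ := pow_one _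
      have h7 : aa J r (k + 1 + (p + 1)) ≤ YY J b r k * eta J k :=
        h3.trans (mul_le_mul y3 h6 (by positivity) hY)
      have hS : aa J r (k + 1 + (p + 1)) * (b * xx J r (k + 1 + (p + 1))) ^ (i : ℕ) ≤
          b * eta J k * YY J b r k := by
        rcases hi with h | h
        · rw [h, pow_zero, mul_one]
          have : 0 ≤ YY J b r k * eta J k := by positivity
          nlinarith
        · rw [h, pow_one]
          have : b * xx J r (k + 1 + (p + 1)) ≤ b * 1 :=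
            mul_le_mul_of_nonneg_left (by linarith) hb0
          calc _ ≤ (YY J b r k * eta J k) * (b * 1) :=
                mul_le_mul h7 this (mul_nonneg hb0 hx) (by positivity)
            _ = _ := by ring
      refine (hred _ _ hS hpw (by positivity)).trans (hfinal _ _ ?_)
      linarith
    · have hl3 : l = k + 1 := by omega
      subst hl3
      rcases hi with h | h
      · have hpw : (r / ((k + 1 : ℕ) + 1)) ^ (j : ℕ) ≤ 1 + del J k := by
          have := (abs_le.mp (ratio_close h1 h2 hjJ).2).2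
          push_cast
          linarith
        have hS : aa J r (k + 1) * (b * xx J r (k + 1)) ^ (i : ℕ) ≤ YY J b r k := by
          rw [h, pow_zero, mul_one]; exact y3
        refine (hred _ _ hS hpw hY).trans (hfinal _ _ ?_)
        linarith
      · have hpw : (r / ((k + 1 : ℕ) + 1)) ^ (j : ℕ) ≤ 1 := by
          apply pow_le_one₀ (by positivity)
          rw [div_le_one (by positivity)]
          push_cast
          linarith
        have h4 := xx_right J k hr.le h2 (l := k + 1) le_rfl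
        have hS : aa J r (k + 1) * (b * xx J r (k + 1)) ^ (i : ℕ) ≤ b * eta J k * YY J b r k := by
          rw [h, pow_one]
          calc _ ≤ YY J b r k * (b * eta J k) :=
                mul_le_mul y3 (mul_le_mul_of_nonneg_left h4 hb0) (mul_nonneg hb0 hx) hY
            _ = _ := by ring
        refine (hred _ _ hS hpw (by positivity)).trans (hfinal _ _ ?_)
        linarith

/-- Lower bound for some Taylor term. -/
lemma term_ge (hb : 0 ≤ b) (hμ : 0 ≤ μ) (j0 : ℕ) (hj : j0 ≤ J) (hq0 : ∀ i, ‖q i j0‖ = μ) (r : ℝ)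
    (k : ℕ) (h1 : (k : ℝ) + 1 / 2 ≤ r) (h2 : r ≤ k + 3 / 2) :
    ∃ e, μ * (1 - del J k) * YY J b r k ≤ ‖ta J b q e‖ * r ^ e := by
  have hk : (0 : ℝ) ≤ k := Nat.cast_nonneg k
  have hr : 0 < r := by linarith
  have hjf : j0 < J + 1 := by omega
  have hnorm : ∀ (l : ℕ) (i : Fin 2), ‖cf J b q (l, i, ⟨j0, hjf⟩)‖ * r ^ (expo J (l, i, ⟨j0, hjf⟩)) =
      aa J r l * (b * xx J r l) ^ (i : ℕ) * (μ * (r / (l + 1)) ^ j0) := by
    intro l i
    have := norm_term J b hb q (l, i, ⟨j0, hjf⟩) (r : ℂ)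
    rw [Complex.norm_real, Real.norm_of_nonneg hr.le] at this
    rw [this, hq0]
  have hc1 : 1 - del J k ≤ (r / (k + 1)) ^ j0 := by
    have := (abs_le.mp (ratio_close h1 h2 hj).1).1
    linarith
  have hc2 : 1 - del J k ≤ (r / (k + 1 + 1)) ^ j0 := by
    have := (abs_le.mp (ratio_close h1 h2 hj).2).1
    linarith
  have hcases : YY J b r k = aa J r k ∨ YY J b r k = b * (aa J r k * xx J r k) ∨
      YY J b r k = aa J r (k + 1) := by
    unfold YY
    rcases max_choice (aa J r k) (max (b * (aa J r k * xx J r k)) (aa J r (k + 1))) with h | h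
    · left; exact h
    · right
      rw [h]
      exact max_choice _ _
  have hx := xx_nonneg J hr.le k
  rcases hcases with h | h | h
  · refine ⟨expo J (k, 0, ⟨j0, hjf⟩), ?_⟩
    rw [ta_expo, hnorm, h]
    simp only [Fin.val_zero, pow_zero, mul_one]
    have := mul_le_mul_of_nonneg_left hc1 (mul_nonneg (aa_nonneg J r k) hμ)
    linarith
  · refine ⟨expo J (k, 1, ⟨j0, hjf⟩), ?_⟩
    rw [ta_expo, hnorm, h]
    simp only [Fin.val_one, pow_one]
    have := mul_le_mul_of_nonneg_left hc1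
      (mul_nonneg (mul_nonneg (aa_nonneg J r k) (mul_nonneg hb hx)) hμ)
    linarith
  · refine ⟨expo J (k + 1, 0, ⟨j0, hjf⟩), ?_⟩
    rw [ta_expo, hnorm, h]
    simp only [Fin.val_zero, pow_zero, mul_one]
    push_cast
    have := mul_le_mul_of_nonneg_left hc2 (mul_nonneg (aa_nonneg J r (k + 1)) hμ)
    linarith

end

end Pool.Agent.MaxTermRatio
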