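import Mathlib

/-!
Slow partition polynomials.  For `0 < C < ρ` we build finitely many polynomials `q i`
(`3`-periodic in `i`) whose largest Taylor coefficient is `μ = C * K`, with `K ≥ 1/ρ`, and which
on the unit circle are, up to a common unimodular factor, `s + K * t i` with
`s + t i + t (i+1) + t (i+2) = 1`.
-/

set_option autoImplicit false

open Polynomial

namespace Pool.Agent.MaxTermRatio

/-- Riesz type product. -/
noncomputable def Phi : ℕ → Polynomial ℂ → Polynomial ℂ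
  | 0, p => p
  | (L + 1), p => Phi L p * (C (1 / 4 : ℂ) * (1 + X ^ (2 * 3 ^ (L + 1))) ^ 2)

/-- Centre. -/
def cen (L : ℕ) : ℕ := 3 ^ (L + 1) - 1

lemma cen_succ (L : ℕ) : cen (L + 1) = cen L + 2 * 3 ^ (L + 1) := by
  unfold cen
  have : 1 ≤ 3 ^ (L + 1) := Nat.one_le_pow _ _ (by norm_num)
  rw [pow_succ 3 (L + 1)]
  omega

lemma two_le_cen (L : ℕ) : 2 ≤ cen L := by
  unfold cen
  have : 3 ^ 1 ≤ 3 ^ (L + 1) := Nat.pow_le_pow_right (by norm_num) (by omega)
  omega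

lemma coeff_step (p : Polynomial ℂ) (M k : ℕ) :
    (p * (C (1 / 4 : ℂ) * (1 + X ^ M) ^ 2)).coeff k =
      (1 / 4 : ℂ) * (p.coeff k + 2 * (if M ≤ k then p.coeff (k - M) else 0)
        + (if 2 * M ≤ k then p.coeff (k - 2 * M) else 0)) := by
  have : p * (C (1 / 4 : ℂ) * (1 + X ^ M) ^ 2) =
      C (1 / 4 : ℂ) * (p + C 2 * (p * X ^ M) + p * X ^ (2 * M)) := by
    rw [show (C (2 : ℂ)) = (2 : Polynomial ℂ) from rfl]
    ring
  rw [this, coeff_C_mul, coeff_add, coeff_add, coeff_C_mul, coeff_mul_X_pow', coeff_mul_X_pow']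

lemma Phi_coeff (L : ℕ) (p : Polynomial ℂ) (m : ℝ) (hp : ∀ k, 5 ≤ k → p.coeff k = 0)
    (hm : ∀ k, ‖p.coeff k‖ ≤ m) :
    (∀ k, 2 * cen L < k → (Phi L p).coeff k = 0) ∧ (∀ k, ‖(Phi L p).coeff k‖ ≤ m / 2 ^ L) ∧
      (Phi L p).coeff (cen L) = p.coeff 2 / 2 ^ L := by
  induction L with
  | zero =>
    refine ⟨?_, ?_, ?_⟩
    · intro k hk
      have : cen 0 = 2 := by decide
      rw [this] at hk
      exact hp k (by omega)
    · intro k
      simpa [Phi] using hm k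
    · have : cen 0 = 2 := by decide
      simp [Phi, this]
  | succ L ih =>
    obtain ⟨h1, h2, h3⟩ := ih
    have hM : 2 * cen L < 2 * 3 ^ (L + 1) := by
      unfold cen
      have : 1 ≤ 3 ^ (L + 1) := Nat.one_le_pow _ _ (by norm_num)
      omega
    have hm0 : 0 ≤ m := le_trans (norm_nonneg _) (hm 0)
    have hmL : 0 ≤ m / 2 ^ L := by positivity
    have hc := cen_succ L
    generalize hMdef : 2 * 3 ^ (L + 1) = M at *
    refine ⟨?_, ?_, ?_⟩
    · intro k hk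
      rw [Phi, hMdef, coeff_step]
      rw [h1 k (by omega)]
      have e1 : (if M ≤ k then (Phi L p).coeff (k - M) else 0) = 0 := by
        split_ifs
        · exact h1 _ (by omega)
        · rfl
      have e2 : (if 2 * M ≤ k then (Phi L p).coeff (k - 2 * M) else 0) = 0 := by
        split_ifs
        · exact h1 _ (by omega)
        · rfl
      rw [e1, e2]
      ring
    · intro k
      rw [Phi, hMdef, coeff_step]
      have hL : m / 2 ^ (L + 1) = (m / 2 ^ L) / 2 := by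
        rw [pow_succ]; field_simp
      rw [hL]
      rcases lt_or_ge k M with hk | hk
      · rw [if_neg (by omega), if_neg (by omega)]
        have := h2 k
        rw [mul_zero, add_zero, add_zero, norm_mul]
        have h4 : ‖(1 / 4 : ℂ)‖ = 1 / 4 := by norm_num
        rw [h4]
        linarith
      · rcases lt_or_ge k (2 * M) with hk2 | hk2
        · rw [if_pos hk, if_neg (by omega), h1 k (by omega)]
          have := h2 (k - M)
          have e : (1 / 4 : ℂ) * (0 + 2 * (Phi L p).coeff (k - M) + 0)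
              = (1 / 2 : ℂ) * (Phi L p).coeff (k - M) := by ring
          rw [e, norm_mul]
          have h4 : ‖(1 / 2 : ℂ)‖ = 1 / 2 := by norm_num
          rw [h4]
          linarith
        · rw [if_pos hk, if_pos hk2, h1 k (by omega), h1 (k - M) (by omega)]
          have := h2 (k - 2 * M)
          have e : (1 / 4 : ℂ) * (0 + 2 * 0 + (Phi L p).coeff (k - 2 * M))
              = (1 / 4 : ℂ) * (Phi L p).coeff (k - 2 * M) := by ring
          rw [e, norm_mul]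
          have h4 : ‖(1 / 4 : ℂ)‖ = 1 / 4 := by norm_num
          rw [h4]
          linarith
    · rw [Phi, hMdef, coeff_step, hc]
      rw [if_pos (by omega), if_neg (by omega), h1 (cen L + M) (by omega),
        Nat.add_sub_cancel, h3, pow_succ]
      field_simp
      ring

/-- The real Riesz product. -/
noncomputable def Bf : ℕ → ℂ → ℝ
  | 0, _ => 1
  | (L + 1), z => Bf L z * ‖(1 + z ^ (2 * 3 ^ (L + 1))) / 2‖ ^ 2

lemma sq_eq (u : ℂ) (hu : ‖u‖ = 1) :
    (1 + u) ^ 2 / 4 = u * ((‖(1 + u) / 2‖ ^ 2 : ℝ) : ℂ) := by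
  have h : u * (starRingEnd ℂ) u = 1 := by
    rw [Complex.mul_conj, Complex.normSq_eq_norm_sq, hu]; simp
  rw [Complex.ofReal_pow, ← Complex.mul_conj']
  simp only [map_div₀, map_add, map_one, map_ofNat]
  have : (1 + u) ^ 2 / 4 = (1 + u) / 2 * ((u + u * (starRingEnd ℂ) u) / 2) := by
    rw [h]; ring
  rw [this]; ring

lemma Bf_nonneg (L : ℕ) (z : ℂ) : 0 ≤ Bf L z := by
  induction L with
  | zero => simp [Bf]
  | succ L ih => rw [Bf]; positivity

lemma Bf_le_one (L : ℕ) (z : ℂ) (hz : ‖z‖ = 1) : Bf L z ≤ 1 := by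
  induction L with
  | zero => simp [Bf]
  | succ L ih =>
    rw [Bf]
    have h1 : ‖(1 + z ^ (2 * 3 ^ (L + 1))) / 2‖ ≤ 1 := by
      rw [norm_div]
      have : ‖1 + z ^ (2 * 3 ^ (L + 1))‖ ≤ 2 := by
        calc _ ≤ ‖(1 : ℂ)‖ + ‖z ^ (2 * 3 ^ (L + 1))‖ := norm_add_le _ _
          _ = 2 := by rw [norm_pow, hz]; norm_num
      have h2 : ‖(2 : ℂ)‖ = 2 := by norm_num
      rw [h2]
      linarith
    have h2 : ‖(1 + z ^ (2 * 3 ^ (L + 1))) / 2‖ ^ 2 ≤ 1 := by
      apply pow_le_one₀ (norm_nonneg _) h1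
    calc _ ≤ 1 * 1 := mul_le_mul ih h2 (by positivity) (by norm_num)
      _ = 1 := by norm_num

lemma Bf_root (L : ℕ) (z : ℂ) (hz : z ^ 3 = 1) : Bf L z = 1 := by
  induction L with
  | zero => simp [Bf]
  | succ L ih =>
    rw [Bf, ih]
    have : z ^ (2 * 3 ^ (L + 1)) = 1 := by
      rw [show 2 * 3 ^ (L + 1) = 3 * (2 * 3 ^ L) by ring, pow_mul, hz, one_pow]
    rw [this]
    norm_num

lemma Phi_eval (L : ℕ) (p : Polynomial ℂ) (z : ℂ) (hz : ‖z‖ = 1) :
    (Phi L p).eval z = p.eval z * z ^ (cen L - 2) * (Bf L z : ℂ) := by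
  induction L with
  | zero => simp [Phi, Bf, show cen 0 = 2 by decide]
  | succ L ih =>
    rw [Phi, eval_mul, ih]
    have h2 := two_le_cen L
    have : cen (L + 1) - 2 = (cen L - 2) + 2 * 3 ^ (L + 1) := by
      rw [cen_succ]; omega
    rw [this, Bf]
    have h4 := sq_eq (z ^ (2 * 3 ^ (L + 1))) (by rw [norm_pow, hz, one_pow])
    simp only [eval_mul, eval_C, eval_pow, eval_add, eval_one, eval_X]
    generalize 2 * 3 ^ (L + 1) = M at *
    rw [pow_add, show (1 / 4 : ℂ) * (1 + z ^ M) ^ 2 = (1 + z ^ M) ^ 2 / 4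
      by ring, h4]
    push_cast
    ring

/-- Cube root of unity. -/
noncomputable def om : ℂ := Complex.exp (2 * Real.pi * Complex.I / 3)

lemma om_cube : om ^ 3 = 1 := by
  unfold om
  rw [← Complex.exp_nat_mul]
  rw [show ((3 : ℕ) : ℂ) * (2 * Real.pi * Complex.I / 3) = 2 * Real.pi * Complex.I by
    push_cast; ring]
  exact Complex.exp_two_pi_mul_I

lemma om_ne_one : om ≠ 1 := by
  have h : IsPrimitiveRoot om 3 := by
    have := Complex.isPrimitiveRoot_exp 3 (by norm_num)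
    unfold om
    convert this using 2
    norm_num
  exact h.ne_one (by norm_num)

lemma om_sum : 1 + om + om ^ 2 = 0 := by
  have h := om_cube
  have h1 := om_ne_one
  have : (om - 1) * (1 + om + om ^ 2) = 0 := by
    ring_nf; rw [h]; ring
  rcases mul_eq_zero.mp this with h2 | h2
  · exact absurd (sub_eq_zero.mp h2) h1
  · exact h2

lemma om_norm : ‖om‖ = 1 := by
  have h := congrArg norm om_cube
  rw [norm_pow, norm_one] at h
  exact (pow_eq_one_iff_of_nonneg (norm_nonneg _) (by norm_num)).mp h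

lemma tri_eq (u : ℂ) (hu : ‖u‖ = 1) :
    (1 + u + u ^ 2) ^ 2 = u ^ 2 * ((‖1 + u + u ^ 2‖ ^ 2 : ℝ) : ℂ) := by
  have h : u * (starRingEnd ℂ) u = 1 := by
    rw [Complex.mul_conj, Complex.normSq_eq_norm_sq, hu]; simp
  rw [Complex.ofReal_pow, ← Complex.mul_conj']
  simp only [map_add, map_one, map_pow]
  have : (1 + u + u ^ 2) ^ 2 =
      (1 + u + u ^ 2) * (u ^ 2 + u * (u * (starRingEnd ℂ) u) + (u * (starRingEnd ℂ) u) ^ 2) := by
    rw [h]; ring
  rw [this]; ring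

/-- Partition functions. -/
noncomputable def tau (i : ℕ) (z : ℂ) : ℝ := ‖1 + (om ^ (2 * i) * z) + (om ^ (2 * i) * z) ^ 2‖ ^ 2 / 9

lemma tau_nonneg (i : ℕ) (z : ℂ) : 0 ≤ tau i z := by unfold tau; positivity

lemma tau_sum (i : ℕ) (z : ℂ) (hz : ‖z‖ = 1) : tau i z + tau (i + 1) z + tau (i + 2) z = 1 := by
  unfold tau
  set u := om ^ (2 * i) * z with hu
  have hun : ‖u‖ = 1 := by rw [hu, norm_mul, norm_pow, om_norm, hz]; norm_num
  have e1 : om ^ (2 * (i + 1)) * z = om ^ 2 * u := by rw [hu]; ring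
  have e2 : om ^ (2 * (i + 2)) * z = om * u := by
    rw [hu, show om ^ (2 * (i + 2)) = om ^ (2 * i) * om ^ 3 * om by ring, om_cube]; ring
  rw [e1, e2]
  have hc := om_cube
  have hs := om_sum
  have h : u * (starRingEnd ℂ) u = 1 := by
    rw [Complex.mul_conj, Complex.normSq_eq_norm_sq, hun]; simp
  have ho : om * (starRingEnd ℂ) om = 1 := by
    rw [Complex.mul_conj, Complex.normSq_eq_norm_sq, om_norm]; simp
  have hco : (starRingEnd ℂ) om = om ^ 2 := by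
    have : om ^ 2 * (om * (starRingEnd ℂ) om) = om ^ 2 := by rw [ho, mul_one]
    rw [← this, ← mul_assoc, ← pow_succ, hc, one_mul]
  have key : ((‖1 + u + u ^ 2‖ ^ 2 : ℝ) : ℂ) + ((‖1 + om ^ 2 * u + (om ^ 2 * u) ^ 2‖ ^ 2 : ℝ) : ℂ)
      + ((‖1 + om * u + (om * u) ^ 2‖ ^ 2 : ℝ) : ℂ) = 9 := by
    simp only [Complex.ofReal_pow]
    simp only [← Complex.mul_conj']
    simp only [map_add, map_one, map_pow, map_mul, hco]
    generalize (starRingEnd ℂ) u = v at h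
    have h2 : om ^ 2 = -1 - om := by linear_combination hs
    have h4 : om ^ 4 = om := by
      rw [show om ^ 4 = om ^ 3 * om by ring, hc, one_mul]
    have : (1 + u + u ^ 2) * (1 + v + v ^ 2) + (1 + om ^ 2 * u + (om ^ 2 * u) ^ 2) *
        (1 + (om ^ 2) ^ 2 * v + ((om ^ 2) ^ 2 * v) ^ 2) + (1 + om * u + (om * u) ^ 2) *
        (1 + om ^ 2 * v + (om ^ 2 * v) ^ 2)
        = 3 + 3 * (u * v) + 3 * (u * v) ^ 2 + (1 + om + om ^ 2) * (v + v^2 + u + u * v ^ 2 + u ^ 2 + u ^ 2 * v) := by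
      have h5 : om ^ 5 = om ^ 2 := by
        rw [show om ^ 5 = om ^ 3 * om ^ 2 by ring, hc, one_mul]
      have h6 : om ^ 6 = 1 := by
        rw [show om ^ 6 = om ^ 3 * om ^ 3 by ring, hc, one_mul]
      have h8 : om ^ 8 = om ^ 2 := by
        rw [show om ^ 8 = om ^ 3 * om ^ 3 * om ^ 2 by ring, hc, one_mul, one_mul]
      have h10 : om ^ 10 = om := by
        rw [show om ^ 10 = om ^ 3 * om ^ 3 * om ^ 3 * om by ring, hc, one_mul, one_mul, one_mul]
      have h12 : om ^ 12 = 1 := by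
        rw [show om ^ 12 = om ^ 3 * om ^ 3 * om ^ 3 * om ^ 3 by ring, hc, one_mul, one_mul, one_mul]
      ring_nf
      simp only [h5, h6, h8, h10, h12, hc, h4]
      ring
    rw [this, hs, h]; ring
  have key' : ‖1 + u + u ^ 2‖ ^ 2 + ‖1 + om ^ 2 * u + (om ^ 2 * u) ^ 2‖ ^ 2
      + ‖1 + om * u + (om * u) ^ 2‖ ^ 2 = 9 := by
    exact_mod_cast key
  linarith

/-- Base polynomial. -/
noncomputable def pp (i : ℕ) : Polynomial ℂ :=
  C (om ^ (2 * i) / 9) + C (2 * om ^ (4 * i) / 9) * X + C (3 / 9) * X ^ 2 +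
    C (2 * om ^ (2 * i) / 9) * X ^ 3 + C (om ^ (4 * i) / 9) * X ^ 4

lemma om_pow_norm (k : ℕ) : ‖om ^ k‖ = 1 := by rw [norm_pow, om_norm, one_pow]

lemma pp_eval (i : ℕ) (z : ℂ) (hz : ‖z‖ = 1) : (pp i).eval z = z ^ 2 * (tau i z : ℂ) := by
  have hun : ‖om ^ (2 * i) * z‖ = 1 := by rw [norm_mul, om_pow_norm, hz]; norm_num
  have h := tri_eq (om ^ (2 * i) * z) hun
  have hi : (om ^ (2 * i)) ^ 3 = 1 := by
    rw [← pow_mul, show 2 * i * 3 = 3 * (2 * i) by ring, pow_mul, om_cube, one_pow]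
  have h4 : om ^ (4 * i) = (om ^ (2 * i)) ^ 2 := by ring
  unfold tau pp
  simp only [eval_add, eval_mul, eval_C, eval_X, eval_pow]
  rw [h4]
  generalize om ^ (2 * i) = ζ at *
  have : z ^ 2 * (((‖1 + ζ * z + (ζ * z) ^ 2‖ ^ 2 / 9 : ℝ)) : ℂ) =
      ζ * (1 + ζ * z + (ζ * z) ^ 2) ^ 2 / 9 := by
    rw [h]
    push_cast
    linear_combination (-(z ^ 2 * (‖1 + ζ * z + (ζ * z) ^ 2‖ : ℂ) ^ 2 / 9)) * hi
  rw [this]
  linear_combination (- (3 * z ^ 2 / 9 + (z ^ 3 * 2 * ζ) / 9 + z ^ 4 * ζ ^ 2 / 9)) * hi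

lemma pp_coeff (i : ℕ) :
    (∀ k, 5 ≤ k → (pp i).coeff k = 0) ∧ (∀ k, ‖(pp i).coeff k‖ ≤ 1 / 3) ∧
      (pp i).coeff 2 = 1 / 3 := by
  have hco : ∀ k, (pp i).coeff k = (if k = 0 then om ^ (2 * i) / 9 else 0) +
      (if k = 1 then 2 * om ^ (4 * i) / 9 else 0) + (if k = 2 then 3 / 9 else 0) +
      (if k = 3 then 2 * om ^ (2 * i) / 9 else 0) + (if k = 4 then om ^ (4 * i) / 9 else 0) := by
    intro k
    unfold pp
    simp only [coeff_add, coeff_C, coeff_C_mul, coeff_X_pow, coeff_X]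
    simp only [mul_ite, mul_one, mul_zero]
    congr 1
    congr 1
    congr 1
    congr 1
    by_cases h : k = 1
    · simp [h]
    · simp [h, Ne.symm h]
  have n1 := om_pow_norm (2 * i)
  have n2 := om_pow_norm (4 * i)
  refine ⟨?_, ?_, ?_⟩
  · intro k hk
    rw [hco, if_neg (by omega), if_neg (by omega), if_neg (by omega), if_neg (by omega),
      if_neg (by omega)]
    ring
  · intro k
    rw [hco]
    rcases Nat.lt_or_ge k 5 with h | h
    · interval_cases k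
      · norm_num [n1]
      · norm_num [n2]
      · norm_num
      · norm_num [n1]
      · norm_num [n2]
    · rw [if_neg (by omega), if_neg (by omega), if_neg (by omega), if_neg (by omega),
      if_neg (by omega)]
      norm_num
  · rw [hco]; norm_num

/-- The slow polynomials. -/
noncomputable def qq (L : ℕ) (K : ℝ) (i : ℕ) : Polynomial ℂ :=
  X ^ (cen L) - Phi L (X ^ 2) + C (K : ℂ) * Phi L (pp i)

lemma qq_eval (L : ℕ) (K : ℝ) (i : ℕ) (z : ℂ) (hz : ‖z‖ = 1) :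
    (qq L K i).eval z =
      z ^ (cen L) * (((1 - Bf L z) + K * (tau i z * Bf L z) : ℝ) : ℂ) := by
  unfold qq
  rw [eval_add, eval_sub, eval_mul, Phi_eval L _ z hz, Phi_eval L _ z hz, pp_eval i z hz]
  simp only [eval_pow, eval_X, eval_C]
  have h2 := two_le_cen L
  have : z ^ cen L = z ^ 2 * z ^ (cen L - 2) := by
    rw [← pow_add]; congr 1; omega
  rw [this]
  push_cast
  ring

lemma qq_coeff (L : ℕ) (hL : 1 ≤ L) (K : ℝ) (hK : 0 ≤ K) (i : ℕ) :
    (∀ k, 2 * cen L < k → (qq L K i).coeff k = 0) ∧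
    (∀ k, ‖(qq L K i).coeff k‖ ≤ 1 - 1 / 2 ^ L + K / (3 * 2 ^ L)) ∧
      ‖(qq L K i).coeff (cen L)‖ = 1 - 1 / 2 ^ L + K / (3 * 2 ^ L) := by
  obtain ⟨p1, p2, p3⟩ := pp_coeff i
  obtain ⟨a1, a2, a3⟩ := Phi_coeff L (pp i) (1 / 3) p1 p2
  obtain ⟨b1, b2, b3⟩ := Phi_coeff L (X ^ 2) 1
    (by intro k hk; rw [coeff_X_pow, if_neg (by omega)])
    (by intro k; rw [coeff_X_pow]; split_ifs <;> norm_num)
  rw [p3] at a3
  rw [coeff_X_pow, if_pos rfl] at b3
  have h2L : (2 : ℝ) ≤ 2 ^ L := by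
    calc (2 : ℝ) = 2 ^ 1 := by norm_num
      _ ≤ 2 ^ L := pow_le_pow_right₀ (by norm_num) hL
  have hco : ∀ k, (qq L K i).coeff k = (if k = cen L then 1 else 0) - (Phi L (X ^ 2)).coeff k
      + K * (Phi L (pp i)).coeff k := by
    intro k
    unfold qq
    rw [coeff_add, coeff_sub, coeff_X_pow, coeff_C_mul]
  have hcen : (qq L K i).coeff (cen L) = ((1 - 1 / 2 ^ L + K / (3 * 2 ^ L) : ℝ) : ℂ) := by
    rw [hco, if_pos rfl, a3, b3]
    push_cast
    field_simp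
  have hpos : 0 ≤ 1 - 1 / 2 ^ L + K / (3 * 2 ^ L) := by
    have : 1 / (2 : ℝ) ^ L ≤ 1 / 2 := one_div_le_one_div_of_le (by norm_num) h2L
    have : 0 ≤ K / (3 * 2 ^ L) := by positivity
    linarith
  refine ⟨?_, ?_, ?_⟩
  · intro k hk
    have h2 := two_le_cen L
    rw [hco, if_neg (by omega), a1 k hk, b1 k hk]
    ring
  · intro k
    by_cases hk : k = cen L
    · rw [hk, hcen, Complex.norm_real, Real.norm_of_nonneg hpos]
    · rw [hco, if_neg hk]
      calc ‖0 - (Phi L (X ^ 2)).coeff k + K * (Phi L (pp i)).coeff k‖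
          ≤ ‖0 - (Phi L (X ^ 2)).coeff k‖ + ‖(K : ℂ) * (Phi L (pp i)).coeff k‖ := norm_add_le _ _
        _ ≤ 1 / 2 ^ L + K * ((1 / 3) / 2 ^ L) := by
            rw [zero_sub, norm_neg, norm_mul, Complex.norm_real, Real.norm_of_nonneg hK]
            exact add_le_add (b2 k) (mul_le_mul_of_nonneg_left (a2 k) hK)
        _ ≤ 1 - 1 / 2 ^ L + K / (3 * 2 ^ L) := by
            have h1 : 1 / (2 : ℝ) ^ L ≤ 1 / 2 := one_div_le_one_div_of_le (by norm_num) h2L
            have h2 : K * ((1 / 3) / 2 ^ L) = K / (3 * 2 ^ L) := by field_simp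
            rw [h2]
            linarith
  · rw [hcen, Complex.norm_real, Real.norm_of_nonneg hpos]

lemma qq_root (L : ℕ) (K : ℝ) (i : ℕ) :
    (qq L K i).eval (om ^ i) = (om ^ i) ^ (cen L) * (K : ℂ) ∧
      (qq L K (i + 1)).eval (om ^ i) = 0 ∧ (qq L K (i + 2)).eval (om ^ i) = 0 := by
  have hz : ‖om ^ i‖ = 1 := om_pow_norm i
  have hB : Bf L (om ^ i) = 1 := by
    apply Bf_root
    rw [← pow_mul, mul_comm, pow_mul, om_cube, one_pow]
  have h3 : om ^ (3 * i) = 1 := by rw [pow_mul, om_cube, one_pow]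
  have e0 : om ^ (2 * i) * om ^ i = 1 := by
    rw [← pow_add, show 2 * i + i = 3 * i by ring, h3]
  have e1 : om ^ (2 * (i + 1)) * om ^ i = om ^ 2 := by
    rw [← pow_add, show 2 * (i + 1) + i = 3 * i + 2 by ring, pow_add, h3, one_mul]
  have e2 : om ^ (2 * (i + 2)) * om ^ i = om := by
    rw [← pow_add, show 2 * (i + 2) + i = 3 * i + 3 + 1 by ring, pow_add, pow_add, h3, om_cube]
    ring
  have t0 : tau i (om ^ i) = 1 := by
    unfold tau; rw [e0]; norm_num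
  have t1 : tau (i + 1) (om ^ i) = 0 := by
    unfold tau; rw [e1]
    rw [show 1 + om ^ 2 + (om ^ 2) ^ 2 = 1 + om ^ 2 + om ^ 3 * om by ring, om_cube,
      show 1 + om ^ 2 + 1 * om = 1 + om + om ^ 2 by ring, om_sum]
    norm_num
  have t2 : tau (i + 2) (om ^ i) = 0 := by
    unfold tau; rw [e2, om_sum]; norm_num
  refine ⟨?_, ?_, ?_⟩
  · rw [qq_eval L K i _ hz, hB, t0]; norm_num
  · rw [qq_eval L K _ _ hz, hB, t1]; norm_num
  · rw [qq_eval L K _ _ hz, hB, t2]; norm_num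

/-- Summary of the slow partition. -/
theorem exists_slow (Ct ρ : ℝ) (h0 : 0 < Ct) (h1 : Ct < ρ) :
    ∃ (J j0 : ℕ) (K : ℝ) (q : ℕ → ℕ → ℂ), j0 ≤ J ∧ 0 < K ∧ 1 / ρ ≤ K ∧
      (∀ i j, ‖q i j‖ ≤ Ct * K) ∧ (∀ i, ‖q i j0‖ = Ct * K) ∧
      (∀ i z, ‖z‖ = 1 → ∃ (s t0 t1 t2 : ℝ), 0 ≤ s ∧ 0 ≤ t0 ∧ 0 ≤ t1 ∧ 0 ≤ t2 ∧
        s + t0 + t1 + t2 = 1 ∧
        (∑ j ∈ Finset.range (J + 1), q i j * z ^ j = z ^ j0 * ((s + K * t0 : ℝ) : ℂ)) ∧
        (∑ j ∈ Finset.range (J + 1), q (i + 1) j * z ^ j = z ^ j0 * ((s + K * t1 : ℝ) : ℂ)) ∧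
        (∑ j ∈ Finset.range (J + 1), q (i + 2) j * z ^ j = z ^ j0 * ((s + K * t2 : ℝ) : ℂ))) ∧
      (∀ i, ∃ z : ℂ, ‖z‖ = 1 ∧ ‖∑ j ∈ Finset.range (J + 1), q i j * z ^ j‖ = K ∧
        ∑ j ∈ Finset.range (J + 1), q (i + 1) j * z ^ j = 0 ∧
        ∑ j ∈ Finset.range (J + 1), q (i + 2) j * z ^ j = 0) ∧
      (∀ i j, q (i + 3) j = q i j) := by
  -- choose L
  have hρ : 0 < ρ := h0.trans h1
  obtain ⟨L, hL1, hL2, hL3⟩ : ∃ L : ℕ, 1 ≤ L ∧ (1 / 2 : ℝ) ^ L < Ct ∧
      (1 / 2 : ℝ) ^ L * ρ < ρ - Ct := by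
    obtain ⟨L, hL⟩ := exists_pow_lt_of_lt_one (show 0 < min Ct ((ρ - Ct) / ρ) by
      apply lt_min h0
      apply div_pos (by linarith) hρ) (show (1 / 2 : ℝ) < 1 by norm_num)
    refine ⟨L + 1, by omega, ?_, ?_⟩
    · have : (1 / 2 : ℝ) ^ (L + 1) ≤ (1 / 2 : ℝ) ^ L :=
        pow_le_pow_of_le_one (by norm_num) (by norm_num) (by omega)
      exact lt_of_le_of_lt this (lt_of_lt_of_le hL (min_le_left _ _))
    · have : (1 / 2 : ℝ) ^ (L + 1) ≤ (1 / 2 : ℝ) ^ L :=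
        pow_le_pow_of_le_one (by norm_num) (by norm_num) (by omega)
      have h3 := lt_of_le_of_lt this (lt_of_lt_of_le hL (min_le_right _ _))
      rwa [lt_div_iff₀ hρ] at h3
  set ε : ℝ := (1 / 2 : ℝ) ^ L with hε
  have hε0 : 0 < ε := by positivity
  have hε2 : ε ≤ 1 / 2 := by
    calc ε ≤ (1 / 2 : ℝ) ^ 1 := pow_le_pow_of_le_one (by norm_num) (by norm_num) hL1
      _ = 1 / 2 := by norm_num
  have hεL : (1 : ℝ) / 2 ^ L = ε := by rw [hε]; simp
  set K : ℝ := (1 - ε) / (Ct - ε / 3) with hK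
  have hden : 0 < Ct - ε / 3 := by linarith
  have hKpos : 0 < K := div_pos (by linarith) hden
  have hμ : 1 - 1 / 2 ^ L + K / (3 * 2 ^ L) = Ct * K := by
    have : K / (3 * 2 ^ L) = K * ε / 3 := by rw [← hεL]; field_simp
    rw [this, hεL]
    have : K * (Ct - ε / 3) = 1 - ε := by rw [hK]; exact div_mul_cancel₀ _ hden.ne'
    linarith
  refine ⟨2 * cen L, cen L, K, fun i j => (qq L K i).coeff j, by omega, hKpos, ?_, ?_, ?_, ?_, ?_, ?_⟩
  · rw [hK, div_le_div_iff₀ hρ hden]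
    nlinarith
  · intro i j
    rw [← hμ]
    exact (qq_coeff L hL1 K hKpos.le i).2.1 j
  · intro i
    rw [← hμ]
    exact (qq_coeff L hL1 K hKpos.le i).2.2
  all_goals
    have heval : ∀ i z, ∑ j ∈ Finset.range (2 * cen L + 1), (qq L K i).coeff j * z ^ j
        = (qq L K i).eval z := by
      intro i z
      rw [Polynomial.eval_eq_sum_range' (n := 2 * cen L + 1)]
      apply Nat.lt_succ_of_le
      rw [Polynomial.natDegree_le_iff_coeff_eq_zero]
      exact (qq_coeff L hL1 K hKpos.le i).1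
  · intro i z hz
    refine ⟨1 - Bf L z, tau i z * Bf L z, tau (i + 1) z * Bf L z, tau (i + 2) z * Bf L z, ?_, ?_,
      ?_, ?_, ?_, ?_, ?_, ?_⟩
    · have := Bf_le_one L z hz; linarith
    · exact mul_nonneg (tau_nonneg _ _) (Bf_nonneg _ _)
    · exact mul_nonneg (tau_nonneg _ _) (Bf_nonneg _ _)
    · exact mul_nonneg (tau_nonneg _ _) (Bf_nonneg _ _)
    · have := tau_sum i z hz
      linear_combination (Bf L z) * this
    · rw [heval, qq_eval L K i z hz]
    · rw [heval, qq_eval L K _ z hz]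
    · rw [heval, qq_eval L K _ z hz]
  · intro i
    obtain ⟨r1, r2, r3⟩ := qq_root L K i
    refine ⟨om ^ i, om_pow_norm i, ?_, ?_, ?_⟩
    · rw [heval, r1, norm_mul, norm_pow, om_pow_norm, one_pow, one_mul, Complex.norm_real,
        Real.norm_of_nonneg hKpos.le]
    · rw [heval, r2]
    · rw [heval, r3]
  · intro i j
    have : pp (i + 3) = pp i := by
      unfold pp
      have a1 : om ^ (2 * (i + 3)) = om ^ (2 * i) := by
        rw [show 2 * (i + 3) = 2 * i + 3 * 2 by ring, pow_add, pow_mul om 3, om_cube]; ring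
      have a2 : om ^ (4 * (i + 3)) = om ^ (4 * i) := by
        rw [show 4 * (i + 3) = 4 * i + 3 * 4 by ring, pow_add, pow_mul om 3, om_cube]; ring
      rw [a1, a2]
    simp only [qq, this]

end Pool.Agent.MaxTermRatio
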