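import Mathlib
import Pool.Agent.MaxTermRatio.Main
import Pool.Agent.MaxTermRatio.Slow

/-!
Limits of maximum term over maximum modulus.
-/

set_option autoImplicit false

open Filter Topology

namespace Pool.Agent.MaxTermRatio

lemma coeff_unique (c : ℕ → ℂ) (h : ∀ z : ℂ, HasSum (fun n => c n * z ^ n) 0) : ∀ n, c n = 0 := by
  have h1 : HasFPowerSeriesAt (0 : ℂ → ℂ) (FormalMultilinearSeries.ofScalars ℂ c) 0 := by
    rw [hasFPowerSeriesAt_iff]
    apply Filter.Eventually.of_forall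
    intro z
    simp only [FormalMultilinearSeries.coeff_ofScalars, smul_eq_mul, Pi.zero_apply]
    have := h z
    simpa [mul_comm] using this
  have h2 := h1.eq_zero
  intro n
  have h3 : (FormalMultilinearSeries.ofScalars ℂ c).coeff n = c n :=
    FormalMultilinearSeries.coeff_ofScalars
  rw [← h3, h2]
  simp [FormalMultilinearSeries.coeff]

/-- index of the active block -/
noncomputable def kr (r : ℝ) : ℕ := ⌊r - 1 / 2⌋₊

lemma kr_spec {r : ℝ} (hr : 1 / 2 ≤ r) : (kr r : ℝ) + 1 / 2 ≤ r ∧ r ≤ kr r + 3 / 2 := by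
  unfold kr
  constructor
  · have := Nat.floor_le (show 0 ≤ r - 1 / 2 by linarith)
    linarith
  · have := Nat.lt_floor_add_one (r - 1 / 2)
    linarith

lemma tendsto_kr : Tendsto kr atTop atTop := by
  unfold kr
  exact tendsto_nat_floor_atTop.comp (tendsto_atTop_add_const_right _ _ tendsto_id)

lemma tendsto_farE (J : ℕ) : Tendsto (fun k => farE J k) atTop (𝓝 0) := by
  unfold farE
  have h1 := tendsto_poly_geom 4 (J + 1)
  have h2 := (tendsto_eta J).const_mul 2
  rw [mul_zero] at h2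
  have h3 : Tendsto (fun k : ℕ => (k : ℝ) * (((k : ℝ) + 3) ^ J * (4 * k / 2 ^ k))) atTop (𝓝 0) := by
    apply squeeze_zero (fun k => by positivity) (fun k => ?_) h1
    have hk : (0 : ℝ) ≤ k := Nat.cast_nonneg k
    have e1 : (k : ℝ) * (((k : ℝ) + 3) ^ J * (4 * k / 2 ^ k)) =
      (((k : ℝ) + 3) ^ J * k) * (4 * k) / 2 ^ k := by ring
    rw [e1]
    apply div_le_div_of_nonneg_right _ (by positivity)
    apply mul_le_mul _ (by linarith) (by positivity) (by positivity)
    rw [pow_succ]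
    exact mul_le_mul_of_nonneg_left (by linarith) (by positivity)
  simpa using h3.add h2

lemma tendsto_ck (J : ℕ) :
    Tendsto (fun k : ℕ => ((k : ℝ) + 3) ^ J * (4 * k / 2 ^ k)) atTop (𝓝 0) := by
  apply squeeze_zero (fun k => by positivity) (fun k => ?_) (tendsto_poly_geom 4 J)
  have hk : (0 : ℝ) ≤ k := Nat.cast_nonneg k
  rw [← mul_div_assoc]
  apply div_le_div_of_nonneg_right _ (by positivity)
  exact mul_le_mul_of_nonneg_left (by linarith) (by positivity)

/-- General gluing theorem for a good quadratic polynomial. -/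
theorem limit_of_good (b ρ Ct : ℝ) (hb : 1 ≤ b) (h0 : 0 < Ct) (h1 : Ct < ρ)
    (hP : ∀ w : ℂ, ρ * ‖1 + b * w - w ^ 2‖ ≤ max 1 (max (b * ‖w‖) (‖w‖ ^ 2))) :
    ∃ (a : ℕ → ℂ) (f : ℂ → ℂ), (∀ z, HasSum (fun n => a n * z ^ n) (f z)) ∧
      (∀ P : Polynomial ℂ, ∃ z, f z ≠ P.eval z) ∧
      Tendsto (fun r : ℝ => (⨆ n, ‖a n‖ * r ^ n) / (⨆ z : Metric.sphere (0 : ℂ) r, ‖f z‖))
        atTop (𝓝 Ct) := by
  obtain ⟨J, j0, K, q, hj, hK, hρK, hq, hq0, hpart, hroot, hper⟩ := exists_slow Ct ρ h0 h1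
  have hρ : 0 < ρ := h0.trans h1
  have hb0 : 0 ≤ b := by linarith
  set μ := Ct * K with hμ
  have hμ0 : 0 < μ := mul_pos h0 hK
  have hP' : ∀ w : ℂ, ‖1 + b * w - w ^ 2‖ ≤ K * max 1 (max (b * ‖w‖) (‖w‖ ^ 2)) := by
    intro w
    have hm : 0 ≤ max 1 (max (b * ‖w‖) (‖w‖ ^ 2)) := le_trans zero_le_one (le_max_left _ _)
    have h2 : ‖1 + b * w - w ^ 2‖ ≤ 1 / ρ * max 1 (max (b * ‖w‖) (‖w‖ ^ 2)) := by
      rw [one_div, ← div_eq_inv_mul, le_div_iff₀ hρ, mul_comm]
      exact hP w
    exact h2.trans (mul_le_mul_of_nonneg_right hρK hm)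
  have hpart' : ∀ i z, ‖z‖ = 1 → ∃ (s t0 t1 t2 : ℝ), 0 ≤ s ∧ 0 ≤ t0 ∧ 0 ≤ t1 ∧ 0 ≤ t2 ∧
        s + t0 + t1 + t2 = 1 ∧
        QQ J q i z = z ^ j0 * ((s + K * t0 : ℝ) : ℂ) ∧
        QQ J q (i + 1) z = z ^ j0 * ((s + K * t1 : ℝ) : ℂ) ∧
        QQ J q (i + 2) z = z ^ j0 * ((s + K * t2 : ℝ) : ℂ) := hpart
  have hroot' : ∀ i, ∃ z : ℂ, ‖z‖ = 1 ∧ ‖QQ J q i z‖ = K ∧ QQ J q (i + 1) z = 0 ∧
      QQ J q (i + 2) z = 0 := hroot
  have hper' : ∀ i, QQ J q (i + 3) = QQ J q i := by
    intro i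
    funext u
    unfold QQ
    exact Finset.sum_congr rfl fun j _ => by rw [hper]
  have hsum := hasSum_gg J b q μ hb0 hq
  refine ⟨ta J b q, gg J b q, hsum, ?_, ?_⟩
  · -- not a polynomial
    intro P
    by_contra hcon
    push Not at hcon
    have hd : ∀ n, ta J b q n - P.coeff n = 0 := by
      apply coeff_unique
      intro z
      have hs1 := hsum z
      rw [hcon z] at hs1
      have hs2 : HasSum (fun n => P.coeff n * z ^ n) (P.eval z) := by
        rw [Polynomial.eval_eq_sum_range]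
        apply hasSum_sum_of_ne_finset_zero
        intro n hn
        rw [Finset.mem_range, not_lt] at hn
        rw [Polynomial.coeff_eq_zero_of_natDegree_lt (by omega), zero_mul]
      have hs3 := hs1.sub hs2
      rw [sub_self] at hs3
      refine hs3.congr_fun ?_ |> fun h => h
      intro n
      ring
    have hinj : Function.Injective (fun l : ℕ => expo J (l, 0, ⟨j0, by omega⟩)) := by
      intro l l' hl
      have := expo_inj J hl
      exact congrArg (fun p : Idx J => p.1) this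
    obtain ⟨l, hl⟩ : ∃ l : ℕ, P.natDegree < expo J (l, 0, ⟨j0, by omega⟩) := by
      by_contra hno
      push Not at hno
      have hfin : (Set.range (fun l : ℕ => expo J (l, 0, ⟨j0, by omega⟩))).Finite := by
        apply (Set.finite_Iic P.natDegree).subset
        rintro _ ⟨l, rfl⟩
        exact hno l
      exact Set.infinite_range_of_injective hinj hfin
    have h3 := hd (expo J (l, 0, ⟨j0, by omega⟩))
    rw [Polynomial.coeff_eq_zero_of_natDegree_lt hl, sub_zero, ta_expo] at h3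
    have h4 : cf J b q (l, 0, ⟨j0, by omega⟩) ≠ 0 := by
      unfold cf
      simp only [Fin.val_zero, pow_zero, mul_one, add_zero]
      apply mul_ne_zero
      · apply mul_ne_zero (Ac_ne_zero J l)
        intro h
        have := hq0 (2 * l)
        rw [h, norm_zero] at this
        linarith
      · apply inv_ne_zero
        apply pow_ne_zero
        exact_mod_cast Nat.succ_ne_zero l
    exact h4 h3
  · obtain ⟨k0, hk0⟩ := exists_eta J
    -- errors
    set E1 : ℕ → ℝ := fun k => 3 * ((J + 1) * μ * del J k) + (J + 1) * μ * (1 + b) * farE J k with hE1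
    set E2 : ℕ → ℝ := fun k => μ * (del J k + b * ((k + 3) ^ J * (4 * k / 2 ^ k) + eta J k)) with hE2
    have hE1t : Tendsto E1 atTop (𝓝 0) := by
      have a1 := (tendsto_del J).const_mul (3 * ((J + 1) * μ))
      have a2 := (tendsto_farE J).const_mul ((J + 1) * μ * (1 + b))
      have := a1.add a2
      simp only [mul_zero, add_zero] at this
      refine this.congr fun k => ?_
      rw [hE1]; ring
    have hE2t : Tendsto E2 atTop (𝓝 0) := by
      have a1 := (tendsto_del J).add (((tendsto_ck J).add (tendsto_eta J)).const_mul b)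
      have := a1.const_mul μ
      simp only [mul_zero, add_zero] at this
      exact this
    have hev : ∀ᶠ r : ℝ in atTop, 1 / 2 ≤ r ∧ k0 ≤ kr r :=
      (eventually_ge_atTop (1 / 2)).and (tendsto_kr.eventually (eventually_ge_atTop k0))
    -- F and G
    set Y : ℝ → ℝ := fun r => YY J b r (kr r) with hY
    have hYpos : ∀ r : ℝ, 1 / 2 ≤ r → 0 < Y r := fun r hr => YY_pos J b (by linarith) _
    have hF : Tendsto (fun r : ℝ => (⨆ n, ‖ta J b q n‖ * r ^ n) / Y r) atTop (𝓝 μ) := by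
      rw [tendsto_iff_norm_sub_tendsto_zero]
      apply squeeze_zero' (Filter.Eventually.of_forall fun r => norm_nonneg _) _
        (hE2t.comp tendsto_kr)
      filter_upwards [hev] with r hr
      obtain ⟨hr1, hr2⟩ := hr
      obtain ⟨s1, s2⟩ := kr_spec hr1
      have hY0 := hYpos r hr1
      have hup : ∀ e, ‖ta J b q e‖ * r ^ e ≤
          μ * (1 + del J (kr r) + b * (((kr r : ℝ) + 3) ^ J * (4 * (kr r) / 2 ^ (kr r)) +
            eta J (kr r))) * Y r :=
        fun e => term_le J b q μ hb hq r (kr r) s1 s2 (hk0 _ hr2) e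
      have hbdd : BddAbove (Set.range fun e => ‖ta J b q e‖ * r ^ e) := ⟨_, by
        rintro _ ⟨e, rfl⟩; exact hup e⟩
      obtain ⟨e, he⟩ := term_ge J b q μ hb0 hμ0.le j0 hj hq0 r (kr r) s1 s2
      have h3 := ciSup_le hup
      have h4 := le_ciSup hbdd e
      have h5 : μ * (1 - del J (kr r)) * Y r ≤ ⨆ n, ‖ta J b q n‖ * r ^ n := he.trans h4
      rw [Real.norm_eq_abs, abs_le]
      have hd := del_nonneg J (kr r)
      have hc : (0 : ℝ) ≤ ((kr r : ℝ) + 3) ^ J * (4 * (kr r) / 2 ^ (kr r)) := by positivity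
      have hη := (eta_pos J (kr r)).le
      have hsmall : 0 ≤ μ * (b * (((kr r : ℝ) + 3) ^ J * (4 * (kr r) / 2 ^ (kr r)) +
            eta J (kr r))) := by positivity
      constructor
      · have : μ * (1 - del J (kr r)) ≤ (⨆ n, ‖ta J b q n‖ * r ^ n) / Y r := by
          rw [le_div_iff₀ hY0]; exact h5
        simp only [Function.comp, hE2]
        linarith
      · have : (⨆ n, ‖ta J b q n‖ * r ^ n) / Y r ≤ μ * (1 + del J (kr r) +
            b * (((kr r : ℝ) + 3) ^ J * (4 * (kr r) / 2 ^ (kr r)) + eta J (kr r))) := by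
          rw [div_le_iff₀ hY0]; exact h3
        simp only [Function.comp, hE2]
        linarith
    have hG : Tendsto (fun r : ℝ => (⨆ z : Metric.sphere (0 : ℂ) r, ‖gg J b q z‖) / Y r)
        atTop (𝓝 K) := by
      rw [tendsto_iff_norm_sub_tendsto_zero]
      apply squeeze_zero' (Filter.Eventually.of_forall fun r => norm_nonneg _) _
        (hE1t.comp tendsto_kr)
      filter_upwards [hev] with r hr
      obtain ⟨hr1, hr2⟩ := hr
      obtain ⟨s1, s2⟩ := kr_spec hr1
      have hrpos : 0 < r := by linarith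
      have hY0 := hYpos r hr1
      have hdist : ∀ z : ℂ, ‖z‖ = r → ‖gg J b q z - mainT J b q z (kr r)‖ ≤ E1 (kr r) * Y r := by
        intro z hz
        have n1 := near_le J b q μ hb0 hq z (kr r) (by rw [hz]; exact s1) (by rw [hz]; exact s2)
        have n2 := far_le J b q μ hb0 hq z (kr r) (by rw [hz]; exact s1) (by rw [hz]; exact s2)
          (hk0 _ hr2)
        rw [hz] at n1 n2
        calc _ = ‖(gg J b q z - mainP J b q z (kr r)) + (mainP J b q z (kr r) -
              mainT J b q z (kr r))‖ := by congr 1; ring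
          _ ≤ _ := norm_add_le _ _
          _ ≤ _ := by simp only [hE1, hY]; linarith
      have hup : ∀ z : Metric.sphere (0 : ℂ) r, ‖gg J b q z‖ ≤ (K + E1 (kr r)) * Y r := by
        rintro ⟨z, hz⟩
        have hz' : ‖z‖ = r := by simpa using hz
        have m1 := mainT_le J b q hb0 K hK.le j0 hP' hpart' z (by rw [hz']; exact hrpos) (kr r)
        rw [hz'] at m1
        have m2 := hdist z hz'
        have m3 : ‖gg J b q z‖ ≤ ‖gg J b q z - mainT J b q z (kr r)‖ + ‖mainT J b q z (kr r)‖ := by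
          have := norm_add_le (gg J b q z - mainT J b q z (kr r)) (mainT J b q z (kr r))
          rwa [sub_add_cancel] at this
        simp only
        have : (K + E1 (kr r)) * Y r = K * Y r + E1 (kr r) * Y r := by ring
        rw [this]
        simp only [hY] at m1 m2 ⊢
        linarith
      have hne : Nonempty (Metric.sphere (0 : ℂ) r) :=
        (NormedSpace.sphere_nonempty.mpr hrpos.le).to_subtype
      have hbdd : BddAbove (Set.range fun z : Metric.sphere (0 : ℂ) r => ‖gg J b q z‖) := ⟨_, by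
        rintro _ ⟨e, rfl⟩; exact hup e⟩
      have h3 := ciSup_le hup
      obtain ⟨z, hz, hz2⟩ := mainT_ge J b q hb0 K hroot' hper' r hrpos (kr r)
      have h4 := le_ciSup hbdd ⟨z, by simpa using hz⟩
      have h5 : (K - E1 (kr r)) * Y r ≤ ⨆ z : Metric.sphere (0 : ℂ) r, ‖gg J b q z‖ := by
        refine le_trans ?_ h4
        have m2 := hdist z hz
        have m3 : ‖mainT J b q z (kr r)‖ ≤ ‖gg J b q z‖ + ‖gg J b q z - mainT J b q z (kr r)‖ := by
          have := norm_sub_le (gg J b q z) (gg J b q z - mainT J b q z (kr r))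
          rwa [sub_sub_cancel] at this
        simp only
        have : (K - E1 (kr r)) * Y r = K * Y r - E1 (kr r) * Y r := by ring
        rw [this]
        simp only [hY] at m2 hz2 ⊢
        rw [hz2] at m3
        linarith
      rw [Real.norm_eq_abs, abs_le]
      constructor
      · have : K - E1 (kr r) ≤ (⨆ z : Metric.sphere (0 : ℂ) r, ‖gg J b q z‖) / Y r := by
          rw [le_div_iff₀ hY0]; exact h5
        simp only [Function.comp]
        linarith
      · have : (⨆ z : Metric.sphere (0 : ℂ) r, ‖gg J b q z‖) / Y r ≤ K + E1 (kr r) := by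
          rw [div_le_iff₀ hY0]; exact h3
        simp only [Function.comp]
        linarith
    have hlim := hF.div hG hK.ne'
    have hμK : μ / K = Ct := by rw [hμ]; field_simp
    rw [hμK] at hlim
    refine hlim.congr' ?_
    filter_upwards [eventually_ge_atTop (1 / 2)] with r hr
    have hY0 := (hYpos r hr).ne'
    simp only [Pi.div_apply]
    rw [div_div_div_cancel_right₀ hY0]

/-- The good quadratic. -/
lemma quad_good (b : ℝ) (hb : 1 ≤ b) (w : ℂ) :
    ‖1 + b * w - w ^ 2‖ ^ 2 ≤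
      (3 / 2 + 9 / (4 * b ^ 2) + 1 / b ^ 4 + b ^ 2 / 4) * (max 1 (max (b * ‖w‖) (‖w‖ ^ 2))) ^ 2 := by
  have hb0 : 0 < b := by linarith
  set y : ℝ := ‖w‖ ^ 2 with hy
  have hy0 : 0 ≤ y := sq_nonneg _
  set x : ℝ := b ^ 2 with hx
  have hx1 : 1 ≤ x := by rw [hx]; nlinarith
  have hx0 : 0 < x := by linarith
  have hb4 : b ^ 4 = x ^ 2 := by rw [hx]; ring
  rw [hb4]
  -- identity
  have hid : ‖1 + b * w - w ^ 2‖ ^ 2 + (2 * w.re - b * (1 - y) / 2) ^ 2 =
      (x / 2 + 2) * y + (1 + x / 4) * (1 + y ^ 2) := by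
    have e1 : ‖1 + b * w - w ^ 2‖ ^ 2 = Complex.normSq (1 + b * w - w ^ 2) :=
      (Complex.normSq_eq_norm_sq _).symm
    have e2 : y = w.re ^ 2 + w.im ^ 2 := by
      rw [hy, ← Complex.normSq_eq_norm_sq, Complex.normSq_apply]; ring
    rw [e1, Complex.normSq_apply, e2, hx]
    simp only [Complex.add_re, Complex.sub_re, Complex.one_re, Complex.mul_re, Complex.ofReal_re,
      Complex.ofReal_im, Complex.add_im, Complex.sub_im, Complex.one_im, Complex.mul_im, pow_two]
    ring
  have hle : ‖1 + b * w - w ^ 2‖ ^ 2 ≤ (x / 2 + 2) * y + (1 + x / 4) * (1 + y ^ 2) := by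
    have := sq_nonneg (2 * w.re - b * (1 - y) / 2)
    linarith
  set g : ℝ := 3 / 2 + 9 / (4 * x) + 1 / x ^ 2 + x / 4 with hg
  have hg0 : 0 < g := by positivity
  have hxg : x ^ 2 * g = 3 / 2 * x ^ 2 + 9 / 4 * x + 1 + x ^ 3 / 4 := by
    rw [hg]; field_simp
  refine hle.trans ?_
  have m1 : 1 ≤ max 1 (max (b * ‖w‖) y) := le_max_left _ _
  have m2 : b * ‖w‖ ≤ max 1 (max (b * ‖w‖) y) := le_trans (le_max_left _ _) (le_max_right _ _)
  have m3 : y ≤ max 1 (max (b * ‖w‖) y) := le_trans (le_max_right _ _) (le_max_right _ _)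
  set m := max 1 (max (b * ‖w‖) y)
  have k1 : 1 ≤ m ^ 2 := one_le_pow₀ m1
  have k2 : x * y ≤ m ^ 2 := by
    have : (b * ‖w‖) ^ 2 ≤ m ^ 2 := pow_le_pow_left₀ (by positivity) m2 2
    calc x * y = (b * ‖w‖) ^ 2 := by rw [hx, hy]; ring
      _ ≤ _ := this
  have k3 : y ^ 2 ≤ m ^ 2 := pow_le_pow_left₀ hy0 m3 2
  -- three regions
  rcases le_total y (1 / x) with h | h
  · have hxy : x * y ≤ 1 := by
      rw [le_div_iff₀ hx0] at h; linarith
    have : (x / 2 + 2) * y + (1 + x / 4) * (1 + y ^ 2) ≤ g := by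
      have h5 : x ^ 2 * ((x / 2 + 2) * y + (1 + x / 4) * (1 + y ^ 2)) ≤ x ^ 2 * g := by
        rw [hxg]
        have a1 : (x * y) ^ 2 ≤ 1 := by
          have : 0 ≤ x * y := by positivity
          nlinarith
        have e : x ^ 2 * ((x / 2 + 2) * y + (1 + x / 4) * (1 + y ^ 2)) =
            (x ^ 2 / 2 + 2 * x) * (x * y) + (1 + x / 4) * (x ^ 2 + (x * y) ^ 2) := by ring
        rw [e]
        have a2 : (x ^ 2 / 2 + 2 * x) * (x * y) ≤ (x ^ 2 / 2 + 2 * x) * 1 :=
          mul_le_mul_of_nonneg_left hxy (by positivity)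
        have a3 : (1 + x / 4) * (x ^ 2 + (x * y) ^ 2) ≤ (1 + x / 4) * (x ^ 2 + 1) :=
          mul_le_mul_of_nonneg_left (by linarith) (by positivity)
        nlinarith
      exact le_of_mul_le_mul_left h5 (by positivity)
    calc _ ≤ g := this
      _ = g * 1 := (mul_one _).symm
      _ ≤ g * m ^ 2 := mul_le_mul_of_nonneg_left k1 hg0.le
  · rcases le_total y x with h2 | h2
    · -- middle
      have hxy : 1 ≤ x * y := by
        rw [div_le_iff₀ hx0] at h; linarith
      have : (x / 2 + 2) * y + (1 + x / 4) * (1 + y ^ 2) ≤ g * (x * y) := by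
        have h5 : x * ((x / 2 + 2) * y + (1 + x / 4) * (1 + y ^ 2)) ≤ x * (g * (x * y)) := by
          have e : x * (g * (x * y)) = (x ^ 2 * g) * y := by ring
          rw [e, hxg]
          -- (x - y)(xy - 1) ≥ 0
          have hp : 0 ≤ (x - y) * (x * y - 1) :=
            mul_nonneg (by linarith) (by linarith)
          nlinarith
        exact le_of_mul_le_mul_left h5 hx0
      calc _ ≤ g * (x * y) := this
        _ ≤ g * m ^ 2 := mul_le_mul_of_nonneg_left k2 hg0.le
    · have : (x / 2 + 2) * y + (1 + x / 4) * (1 + y ^ 2) ≤ g * y ^ 2 := by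
        have h5 : x ^ 2 * ((x / 2 + 2) * y + (1 + x / 4) * (1 + y ^ 2)) ≤ x ^ 2 * (g * y ^ 2) := by
          have e : x ^ 2 * (g * y ^ 2) = (x ^ 2 * g) * y ^ 2 := by ring
          rw [e, hxg]
          have a1 : x * y ≤ y ^ 2 := by nlinarith
          have a2 : x ^ 2 ≤ y ^ 2 := pow_le_pow_left₀ hx0.le h2 2
          have e2 : x ^ 2 * ((x / 2 + 2) * y + (1 + x / 4) * (1 + y ^ 2)) =
            (x ^ 2 / 2 + 2 * x) * (x * y) + (1 + x / 4) * x ^ 2 + (1 + x / 4) * x ^ 2 * y ^ 2 := by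
            ring
          rw [e2]
          have a3 : (x ^ 2 / 2 + 2 * x) * (x * y) ≤ (x ^ 2 / 2 + 2 * x) * y ^ 2 :=
            mul_le_mul_of_nonneg_left a1 (by positivity)
          have a4 : (1 + x / 4) * x ^ 2 ≤ (1 + x / 4) * y ^ 2 :=
            mul_le_mul_of_nonneg_left a2 (by positivity)
          nlinarith
        exact le_of_mul_le_mul_left h5 (by positivity)
      calc _ ≤ g * y ^ 2 := this
        _ ≤ g * m ^ 2 := mul_le_mul_of_nonneg_left k3 hg0.le

/-- Existence for all values below the explicit constant. -/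
theorem limit_exists (Ct : ℝ) (h0 : 0 < Ct) (h1 : Ct < Real.sqrt (128 / (207 + 33 * Real.sqrt 33))) :
    ∃ (a : ℕ → ℂ) (f : ℂ → ℂ), (∀ z, HasSum (fun n => a n * z ^ n) (f z)) ∧
      (∀ P : Polynomial ℂ, ∃ z, f z ≠ P.eval z) ∧
      Tendsto (fun r : ℝ => (⨆ n, ‖a n‖ * r ^ n) / (⨆ z : Metric.sphere (0 : ℂ) r, ‖f z‖))
        atTop (𝓝 Ct) := by
  set s := Real.sqrt 33 with hs
  have hs2 : s ^ 2 = 33 := Real.sq_sqrt (by norm_num)
  have hs5 : 5 < s := by
    rw [hs]; exact Real.lt_sqrt_of_sq_lt (by norm_num)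
  set x : ℝ := (1 + s) / 2 with hx
  have hx3 : 3 < x := by rw [hx]; linarith
  have hxq : x ^ 2 = x + 8 := by rw [hx]; nlinarith
  set b := Real.sqrt x with hb
  have hb2 : b ^ 2 = x := Real.sq_sqrt (by linarith)
  have hb1 : 1 ≤ b := by
    rw [hb]; exact Real.one_le_sqrt.mpr (by linarith)
  have hg : 3 / 2 + 9 / (4 * b ^ 2) + 1 / b ^ 4 + b ^ 2 / 4 = (207 + 33 * s) / 128 := by
    have hb4 : b ^ 4 = x ^ 2 := by rw [← hb2]; ring
    rw [hb4, hb2]
    have hxpos : 0 < x := by linarith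
    have e1 : 1 / x = (x - 1) / 8 := by
      rw [div_eq_div_iff hxpos.ne' (by norm_num)]
      nlinarith
    have e2 : 9 / (4 * x) = 9 / 4 * (1 / x) := by field_simp
    have e3 : 1 / x ^ 2 = (1 / x) ^ 2 := by rw [one_div_pow]
    rw [e2, e3, e1]
    have : ((x - 1) / 8) ^ 2 = (9 - x) / 64 := by
      have : (x - 1) ^ 2 = 9 - x := by nlinarith
      rw [div_pow, this]; norm_num
    rw [this, hx]
    ring
  set ρ := Real.sqrt (128 / (207 + 33 * s)) with hρ
  have hGpos : (0 : ℝ) < 207 + 33 * s := by linarith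
  have hρ2 : ρ ^ 2 = 128 / (207 + 33 * s) := Real.sq_sqrt (by positivity)
  refine limit_of_good b ρ Ct hb1 h0 h1 ?_
  intro w
  have hm : 0 ≤ max 1 (max (b * ‖w‖) (‖w‖ ^ 2)) := le_trans zero_le_one (le_max_left _ _)
  have h2 := quad_good b hb1 w
  rw [hg] at h2
  have hρ0 : 0 ≤ ρ := Real.sqrt_nonneg _
  apply le_of_sq_le_sq _ hm
  rw [mul_pow, hρ2]
  calc 128 / (207 + 33 * s) * ‖1 + b * w - w ^ 2‖ ^ 2
      ≤ 128 / (207 + 33 * s) * ((207 + 33 * s) / 128 * (max 1 (max (b * ‖w‖) (‖w‖ ^ 2))) ^ 2) :=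
        mul_le_mul_of_nonneg_left h2 (by positivity)
    _ = (max 1 (max (b * ‖w‖) (‖w‖ ^ 2))) ^ 2 := by field_simp

end Pool.Agent.MaxTermRatio
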